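import Pool.Agent.Helper51_QSB.MBHB
import Pool.Agent.QSB.StmtsG

/-!
# Squad QSB, row MBH: the datum of `SU (p, p + d)`, `Sp (p, p + d)` is of type `MRB`
-/

set_option autoImplicit false

namespace Pool.Agent.QSB.H51M

open Matrix Finset Pool.Agent.QSX Pool.Agent.QSN Pool.Agent.QSB
open Pool.Agent.QSX.H10 (rd rd_cst)
open Pool.Agent.QSN.H30M (rat_basis tmul)

variable {p d k : ℕ} {𝔻 : Subalgebra ℝ (Matrix (Fin k) (Fin k) ℝ)}

/-! ### positive values -/

/-- the values of the roots at a vector with nonincreasing nonnegative coordinates -/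
theorem val_nonneg (hk : 0 < k) (q : QI p d) (i : ℕ) (hi : i < p) :
    0 ≤ rq hk q.1.1 q.1.2 (wv p d k (uf p i)) ∧
    (rq hk q.1.1 q.1.2 (wv p d k (uf p i)) = 0 → (q.1.1 : ℕ) = i ∧
      ((i + 1 < p ∧ (q.1.2 : ℕ) = i + 1) ∨ (i + 1 = p ∧ p ≤ (q.1.2 : ℕ)))) := by
  obtain ⟨⟨a, b⟩, h0, h1, h2⟩ := q
  simp only at h0 h1 h2 ⊢
  rw [Fin.lt_def] at h1
  rw [rq_wv, W_lt _ h0]
  obtain ⟨e1, e2⟩ := uf_nonneg (p := p) hi h0
  rcases lt_or_ge (b : ℕ) p with h3 | h3
  · rw [W_lt _ h3]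
    obtain ⟨e3, e4⟩ := uf_diff (p := p) (i := i) h1
    refine ⟨e3, fun h => ?_⟩
    obtain ⟨e5, e6⟩ := e4 h
    exact ⟨e5, Or.inl ⟨by omega, e6⟩⟩
  · rcases lt_or_ge (b : ℕ) (p + d) with h4 | h4
    · rw [W_md _ h3 h4, sub_zero]
      refine ⟨e1, fun h => ?_⟩
      obtain ⟨e5, e6⟩ := e2 h
      exact ⟨e5, Or.inr ⟨by omega, h3⟩⟩
    · rw [W_ge _ h4, sub_neg_eq_add]
      obtain ⟨e3, e4⟩ := uf_nonneg (p := p) (a := 2 * p + d - ((b : ℕ) + 1)) hi (by omega)
      refine ⟨by linarith, fun h => ?_⟩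
      obtain ⟨e5, e6⟩ := e2 (by linarith)
      exact ⟨e5, Or.inr ⟨by omega, h3⟩⟩

theorem val_bad (hk : 0 < k) (q : QI p d) (hq : Bad q) :
    rq hk q.1.1 q.1.2 (wv p d k (uf p q.1.1)) = 0 := by
  obtain ⟨⟨a, b⟩, h0, h1, h2⟩ := q
  unfold Bad at hq
  simp only at h0 h1 h2 hq ⊢
  rw [rq_wv, W_lt _ h0, uf_le le_rfl]
  rcases hq with ⟨h3, h4⟩ | ⟨h3, h4⟩
  · rw [W_lt _ h3, uf_gt (by omega), h4]
    push_cast
    ring
  · have h5 : (p : ℝ) - 1 - (a : ℕ) = 0 := by
      have : (p : ℝ) = (((a : ℕ) + 1 : ℕ) : ℝ) := by rw [h3]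
      rw [this]; push_cast; ring
    rw [h5, zero_sub, neg_eq_zero]
    rcases lt_or_ge (b : ℕ) (p + d) with h6 | h6
    · exact W_md _ h4 h6
    · rw [W_ge _ h6]
      have h7 : 2 * p + d - ((b : ℕ) + 1) = a := by omega
      rw [h7, uf_le le_rfl, h5, neg_zero]

/-- all positions with value `0` have proportional roots -/
theorem val_class (hk : 0 < k) (hd : 1 ≤ d) (q : QI p d) (i j : Fin (2 * p + d)) (hi : (i : ℕ) < p)
    (hj : (j : ℕ) = i + 1) (h : rq hk q.1.1 q.1.2 (wv p d k (uf p i)) = 0) :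
    ∃ c : ℝ, c ≠ 0 ∧ rq hk q.1.1 q.1.2 = c • rq hk i j := by
  obtain ⟨h1, h2⟩ := (val_nonneg hk q i hi).2 h
  obtain ⟨⟨a, b⟩, h0, h3, h4⟩ := q
  simp only at h0 h1 h2 h3 h4 ⊢
  have hai : a = i := Fin.ext h1
  subst hai
  rcases h2 with ⟨h5, h6⟩ | ⟨h5, h6⟩
  · have hbj : b = j := Fin.ext (by omega)
    subst hbj
    exact ⟨1, one_ne_zero, by rw [one_smul]⟩
  · have hjm : sg p d j = j := sg_mid (by unfold Md; omega)
    rcases lt_or_ge (b : ℕ) (p + d) with h7 | h7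
    · have hbm : sg p d b = b := sg_mid (by unfold Md; omega)
      refine ⟨1, one_ne_zero, ?_⟩
      rw [one_smul]
      refine rq_ext hk fun c hc => ?_
      rw [rq_apply hk _ _ c hc, rq_apply hk _ _ c hc]
      have e1 := hc b
      have e2 := hc j
      rw [hbm] at e1
      rw [hjm] at e2
      linarith
    · have hsa := sgL hi
      have hb : b = sg p d a := Fin.ext (by omega)
      refine ⟨2, two_ne_zero, ?_⟩
      rw [hb]
      refine rq_ext hk fun c hc => ?_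
      rw [LinearMap.smul_apply, rq_apply hk _ _ c hc, rq_apply hk _ _ c hc, smul_eq_mul]
      have e1 := hc a
      have e2 := hc j
      rw [hjm] at e2
      linarith

/-- the vector of `pos` -/
theorem val_pos (hk : 0 < k) (q : QI p d) :
    0 < rq hk q.1.1 q.1.2 (wv p d k (fun n => (p : ℝ) - n)) := by
  obtain ⟨⟨a, b⟩, h0, h1, h2⟩ := q
  simp only at h0 h1 h2 ⊢
  rw [Fin.lt_def] at h1
  rw [rq_wv, W_lt _ h0]
  have e0 : ((a : ℕ) : ℝ) < p := by exact_mod_cast h0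
  have e1 : ((a : ℕ) : ℝ) < ((b : ℕ) : ℝ) := by exact_mod_cast h1
  rcases lt_or_ge (b : ℕ) p with h3 | h3
  · rw [W_lt _ h3]
    linarith
  · rcases lt_or_ge (b : ℕ) (p + d) with h4 | h4
    · rw [W_md _ h3 h4]
      linarith
    · rw [W_ge _ h4]
      have e2 : ((2 * p + d - ((b : ℕ) + 1) : ℕ) : ℝ) < p := by
        exact_mod_cast (by omega : 2 * p + d - ((b : ℕ) + 1) < p)
      linarith

section

variable (B : Bs p d 𝔻)

theorem Bs.nonempty {q : QI p d} {a : Matrix (Fin k) (Fin k) ℝ}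
    (ha : a ∈ VV p d 𝔻 q.1.1 q.1.2) (ha0 : a ≠ 0) : Nonempty (Fin (B.n q)) := by
  by_contra hc
  rw [not_nonempty_iff] at hc
  rw [← B.sp q, Set.range_eq_empty, Submodule.span_empty, Submodule.mem_bot] at ha
  exact ha0 ha

theorem Bs.rat_e (l : B.I) (x y : Fin ((2 * p + d) * k)) :
    ∃ q : ℚ, blk k (2 * p + d) (B.T l) x y = (q : ℝ) := by
  obtain ⟨⟨i, j⟩, rfl⟩ := finProdFinEquiv.surjective x
  obtain ⟨⟨i', j'⟩, rfl⟩ := finProdFinEquiv.surjective y
  rw [blk_apply, Bs.T, TT_apply]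
  by_cases h1 : i = l.1.1.1 ∧ i' = l.1.1.2
  · rw [if_pos h1]
    exact B.rat _ _ _ _
  · rw [if_neg h1]
    by_cases h2 : i = sg p d l.1.1.2 ∧ i' = sg p d l.1.1.1
    · rw [if_pos h2]
      obtain ⟨q3, e3⟩ := B.rat l.1 l.2 j' j
      refine ⟨-q3, ?_⟩
      rw [Matrix.neg_apply, Matrix.transpose_apply, e3]
      push_cast
      ring
    · rw [if_neg h2]
      exact ⟨0, by rw [Matrix.zero_apply, Rat.cast_zero]⟩

/-- the space `n` of the datum -/
noncomputable def nHD (p d : ℕ) {k : ℕ} (𝔻 : Subalgebra ℝ (Matrix (Fin k) (Fin k) ℝ)) :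
    Submodule ℝ (Matrix (Fin ((2 * p + d) * k)) (Fin ((2 * p + d) * k)) ℝ) :=
  (datH p d 𝔻).n

theorem mem_nHD {z : Matrix (Fin ((2 * p + d) * k)) (Fin ((2 * p + d) * k)) ℝ} :
    z ∈ nHD p d 𝔻 ↔ ∃ x ∈ nH p d 𝔻, z = blk k (2 * p + d) x := Iff.rfl

theorem map_blk (A : Set (Matrix (Fin (2 * p + d)) (Fin (2 * p + d)) (Matrix (Fin k) (Fin k) ℝ)))
    {x : Matrix (Fin (2 * p + d)) (Fin (2 * p + d)) (Matrix (Fin k) (Fin k) ℝ)}
    (hx : x ∈ Submodule.span ℝ A)
    (A' : Set (Matrix (Fin ((2 * p + d) * k)) (Fin ((2 * p + d) * k)) ℝ))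
    (h : ∀ y ∈ A, blk k (2 * p + d) y ∈ A') : blk k (2 * p + d) x ∈ Submodule.span ℝ A' := by
  induction hx using Submodule.span_induction with
  | mem y hy => exact Submodule.subset_span (h y hy)
  | zero => rw [map_zero]; exact Submodule.zero_mem _
  | add x y _ _ hx hy => rw [map_add]; exact Submodule.add_mem _ hx hy
  | smul c x _ hx => rw [map_smul]; exact Submodule.smul_mem _ _ hx

theorem Bs.span_e (ht : ∀ a ∈ 𝔻, aᵀ ∈ 𝔻) :
    Submodule.span ℝ (Set.range fun l : B.I => blk k (2 * p + d) (B.T l)) = nHD p d 𝔻 := by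
  apply le_antisymm
  · rw [Submodule.span_le]
    rintro _ ⟨l, rfl⟩
    exact mem_nHD.2 ⟨_, TT_mem ht l.1.2.2.1 (QI_md l.1) (B.mem l.1 l.2), rfl⟩
  · intro z hz
    obtain ⟨x, hx, rfl⟩ := mem_nHD.1 hz
    rw [← B.span_T ht] at hx
    refine map_blk _ hx _ ?_
    rintro _ ⟨l, rfl⟩
    exact ⟨l, rfl⟩

theorem Bs.lin_e : LinearIndependent ℝ (fun l : B.I => blk k (2 * p + d) (B.T l)) := by
  have h := B.lin_T.map' (blk k (2 * p + d)).toLinearMap (LinearMap.ker_eq_bot.2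
    (blk k (2 * p + d)).injective)
  exact h

theorem Bs.wt_e (hk : 0 < k) (l : B.I) (c : bH p d k) :
    diagonal (c : Fin ((2 * p + d) * k) → ℝ) * blk k (2 * p + d) (B.T l) -
      blk k (2 * p + d) (B.T l) * diagonal (c : Fin ((2 * p + d) * k) → ℝ) =
      rq hk l.1.1.1 l.1.1.2 c • blk k (2 * p + d) (B.T l) := by
  obtain ⟨_, c, hc, rfl⟩ := c
  rw [rq_apply hk _ _ c hc]
  show diagonal (cst k (2 * p + d) c) * _ - _ * diagonal (cst k (2 * p + d) c) = _
  rw [← blk_dia, ← map_mul, ← map_mul, ← map_sub, ← map_smul, Bs.T, dia_TT c hc]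

theorem sep_e (hk : 0 < k) (hd : 1 ≤ d) (a : bH p d k)
    (ha : ∀ l : B.I, rq hk l.1.1.1 l.1.1.2 a = 0) : a = 0 := by
  have : Nonempty (Fin k) := ⟨⟨0, hk⟩⟩
  obtain ⟨_, c, hc, rfl⟩ := a
  have hmid : ∀ i : Fin (2 * p + d), Md p d i → c i = 0 := by
    intro i hi
    have := hc i
    rw [sg_mid hi] at this
    linarith
  have hlt : ∀ i : Fin (2 * p + d), (i : ℕ) < p → c i = 0 := by
    intro i hi
    obtain ⟨r, hr⟩ : ∃ r : Fin (2 * p + d), (r : ℕ) = p := ⟨⟨p, by omega⟩, rfl⟩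
    have hrm : Md p d r := by unfold Md; omega
    let q : QI p d := ⟨(i, r), hi, by rw [Fin.lt_def]; simp only; omega, by simp only; omega⟩
    obtain ⟨β⟩ := B.nonempty (q := q) (a := 1)
      (mem_A (i := i) (j := r) hi (by omega) 𝔻.one_mem) one_ne_zero
    have h4 := ha ⟨q, β⟩
    rw [rq_apply hk _ _ c hc] at h4
    have h5 : c i - c r = 0 := h4
    rw [hmid r hrm, sub_zero] at h5
    exact h5
  have h1 : c = 0 := by
    funext i
    have hi := i.2
    rcases lt_or_ge (i : ℕ) p with h1 | h1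
    · exact hlt i h1
    · rcases lt_or_ge (i : ℕ) (p + d) with h2 | h2
      · exact hmid i ⟨h1, h2⟩
      · have h3 := hc i
        have h4 := sgR h2
        rw [hlt _ (by omega)] at h3
        show c i = 0
        linarith
  subst h1
  exact Subtype.ext rfl

theorem Bs.gen_e (hk : 0 < k) (hH : Herm 𝔻 1) (hd : 1 ≤ d) (t s l l' : B.I)
    (hll : ∀ c : ℝ, rq hk l.1.1.1 l.1.1.2 ≠ c • rq hk l'.1.1.1 l'.1.1.2) (p' q' : ℕ)
    (hp' : 1 ≤ p') (hq' : 1 ≤ q')
    (h : rq hk s.1.1.1 s.1.1.2 = (p' : ℝ) • rq hk l.1.1.1 l.1.1.2 +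
      (q' : ℝ) • rq hk l'.1.1.1 l'.1.1.2)
    (hts : ∃ c : ℝ, rq hk t.1.1.1 t.1.1.2 = c • rq hk s.1.1.1 s.1.1.2) :
    blk k (2 * p + d) (B.T t) ∈ Submodule.span ℝ {z | ∃ w w' : B.I,
      (∀ c : ℝ, rq hk w.1.1.1 w.1.1.2 ≠ c • rq hk w'.1.1.1 w'.1.1.2) ∧
      rq hk w.1.1.1 w.1.1.2 + rq hk w'.1.1.1 w'.1.1.2 = rq hk t.1.1.1 t.1.1.2 ∧
      z = blk k (2 * p + d) (B.T w) * blk k (2 * p + d) (B.T w') -
        blk k (2 * p + d) (B.T w') * blk k (2 * p + d) (B.T w)} := by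
  have hbad : ¬ Bad t.1 := by
    intro hb
    obtain ⟨c, hc⟩ := hts
    have h1 := val_bad hk t.1 hb
    have hc0 : c ≠ 0 := by
      intro h0
      have h2 := val_pos hk t.1
      rw [hc, h0, zero_smul] at h2
      exact lt_irrefl _ h2
    have h3 : rq hk s.1.1.1 s.1.1.2 (wv p d k (uf p t.1.1.1)) = 0 := by
      have h4 : c * rq hk s.1.1.1 s.1.1.2 (wv p d k (uf p t.1.1.1)) = 0 := by
        rw [← h1, hc]
        rfl
      exact (mul_eq_zero.1 h4).resolve_left hc0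
    have hi : (t.1.1.1 : ℕ) < p := t.1.2.1
    have e1 := (val_nonneg hk l.1 t.1.1.1 hi).1
    have e2 := (val_nonneg hk l'.1 t.1.1.1 hi).1
    have e3 : (p' : ℝ) * rq hk l.1.1.1 l.1.1.2 (wv p d k (uf p t.1.1.1)) +
        (q' : ℝ) * rq hk l'.1.1.1 l'.1.1.2 (wv p d k (uf p t.1.1.1)) = 0 := by
      rw [← h3, h]
      rfl
    have p1 : (1 : ℝ) ≤ p' := by exact_mod_cast hp'
    have q1 : (1 : ℝ) ≤ q' := by exact_mod_cast hq'
    have z1 : rq hk l.1.1.1 l.1.1.2 (wv p d k (uf p t.1.1.1)) = 0 := by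
      have f1 : 0 ≤ (q' : ℝ) * rq hk l'.1.1.1 l'.1.1.2 (wv p d k (uf p t.1.1.1)) :=
        mul_nonneg (by linarith) e2
      have f2 : 0 ≤ ((p' : ℝ) - 1) * rq hk l.1.1.1 l.1.1.2 (wv p d k (uf p t.1.1.1)) :=
        mul_nonneg (by linarith) e1
      nlinarith
    have z2 : rq hk l'.1.1.1 l'.1.1.2 (wv p d k (uf p t.1.1.1)) = 0 := by
      have f1 : 0 ≤ (p' : ℝ) * rq hk l.1.1.1 l.1.1.2 (wv p d k (uf p t.1.1.1)) :=
        mul_nonneg (by linarith) e1
      have f2 : 0 ≤ ((q' : ℝ) - 1) * rq hk l'.1.1.1 l'.1.1.2 (wv p d k (uf p t.1.1.1)) :=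
        mul_nonneg (by linarith) e2
      nlinarith
    obtain ⟨j, hj⟩ : ∃ j : Fin (2 * p + d), (j : ℕ) = t.1.1.1 + 1 :=
      ⟨⟨t.1.1.1 + 1, by omega⟩, rfl⟩
    obtain ⟨c1, hc1, g1⟩ := val_class hk hd l.1 t.1.1.1 j hi hj z1
    obtain ⟨c2, hc2, g2⟩ := val_class hk hd l'.1 t.1.1.1 j hi hj z2
    apply hll (c1 / c2)
    rw [g1, g2, smul_smul, div_mul_cancel₀ _ hc2]
  refine map_blk _ (B.gen hk hH hd t.1 hbad (B.mem t.1 t.2)) _ ?_
  rintro _ ⟨w, w', h3, h4, rfl⟩
  refine ⟨w, w', h3, h4, ?_⟩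
  rw [map_sub, map_mul, map_mul]

end

/-! ### climbing -/

/-- climbing to the top root -/
theorem climb_aux (hk : 0 < k) (hH : Herm 𝔻 1) (hp : 2 ≤ p) (hd : 1 ≤ d) (z : Fin (2 * p + d))
    (hz : (z : ℕ) = 0) (ρ : bH p d k →ₗ[ℝ] ℝ) (hρ : ρ ≠ rq hk z (sg p d z))
    {y : Matrix (Fin (2 * p + d)) (Fin (2 * p + d)) (Matrix (Fin k) (Fin k) ℝ)}
    (hy : y ∈ nH p d 𝔻) (hyr : ∀ u v, y u v ≠ 0 → rq hk u v = ρ)
    (h : ∀ q : QI p d, (∀ c : ℝ, rq hk q.1.1 q.1.2 ≠ c • ρ) → ∀ b ∈ VV p d 𝔻 q.1.1 q.1.2,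
      y * TT k q.1.1 q.1.2 b - TT k q.1.1 q.1.2 b * y = 0) : y = 0 := by
  have ht := hH.2.1
  refine ext_fund hy (Submodule.zero_mem _) ?_
  rintro ⟨⟨u, v⟩, hu, huv, huv2⟩
  simp only at hu huv huv2 ⊢
  rw [Fin.lt_def] at huv
  have hv := v.2
  show y u v = 0
  by_contra hne
  have hρ2 := hyr u v hne
  subst hρ2
  by_cases h1 : (u : ℕ) = 0
  · have huz : u = z := Fin.ext (by omega)
    subst huz
    rcases lt_or_ge (v : ℕ) p with h2 | h2
    · -- type (A)
      obtain ⟨r, hr⟩ : ∃ r : Fin (2 * p + d), (r : ℕ) = p := ⟨⟨p, by omega⟩, rfl⟩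
      have hsr : sg p d r = r := sg_mid (by unfold Md; omega)
      have h3 := h ⟨(v, r), by simp only; omega, by rw [Fin.lt_def]; simp only; omega,
        by simp only; omega⟩ (by
          simp only
          refine np_of hk (fun n => if n = 0 ∨ n = (v : ℕ) then 1 else 0) ?_ ?_
          · rw [W_lt _ h2, W_md _ (by omega : p ≤ (r : ℕ)) (by omega), if_pos (Or.inr rfl)]
            norm_num
          · rw [W_lt _ hu, W_lt _ h2, if_pos (Or.inl h1), if_pos (Or.inr rfl), sub_self]) 1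
        (mem_A (by simp only; omega) (by simp only; omega) 𝔻.one_mem)
      have h4 := congrFun (congrFun h3 u) r
      simp only at h4
      rw [Matrix.sub_apply, col1, row0 _ _ _ _ (ne1 (by omega)) (by rw [hsr]; exact ne1 (by omega)),
        mul_one, sub_zero] at h4
      exact hne h4
    · rcases lt_or_ge (v : ℕ) (p + d) with h3 | h3
      · -- type (B)
        obtain ⟨o, ho⟩ : ∃ o : Fin (2 * p + d), (o : ℕ) = 1 := ⟨⟨1, by omega⟩, rfl⟩
        have hsv : sg p d v = v := sg_mid ⟨h2, h3⟩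
        have hso := sgL (p := p) (d := d) (i := o) (by omega)
        have h4 := h ⟨(o, v), by simp only; omega, by rw [Fin.lt_def]; simp only; omega,
          by simp only; omega⟩ (by
            simp only
            refine np_of hk (fun n => if n = 1 then 1 else 0) ?_ ?_
            · rw [W_lt _ (by omega : (o : ℕ) < p), W_md _ h2 h3, if_pos ho]
              norm_num
            · rw [W_lt _ hu, W_md _ h2 h3, if_neg (by omega), sub_zero]) 1
          (mem_A (by simp only; omega) h3 𝔻.one_mem)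
        have h5 := congrFun (congrFun h4 u) (sg p d o)
        simp only at h5
        rw [Matrix.sub_apply, col2 _ _ _ (ne1 (by omega)), row0 _ _ _ _ (ne1 (by omega))
          (by rw [hsv]; exact ne1 (by omega)), hsv, Matrix.transpose_one, mul_one, sub_zero] at h5
        exact hne (neg_eq_zero.1 h5)
      · -- types (C), (L)
        obtain ⟨w, hw⟩ : ∃ w : Fin (2 * p + d), (w : ℕ) = 2 * p + d - (v + 1) :=
          ⟨⟨2 * p + d - (v + 1), by omega⟩, rfl⟩
        have hwp : (w : ℕ) < p := by omega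
        have hsw := sgL hwp
        have hvw : v = sg p d w := Fin.ext (by omega)
        by_cases hwu : w = u
        · apply hρ
          rw [hvw, hwu]
        · have hw0 : (w : ℕ) ≠ 0 := fun h0 => hwu (Fin.ext (by omega))
          have hsu := sgL (p := p) (d := d) (i := u) (by omega)
          obtain ⟨g, hg, hg0, hg2⟩ := exists_g hH
          have haD : y u v ∈ 𝔻 := hy.1.1 u v
          have hta : (y u v)ᵀ ≠ 0 := fun h0 => hne (by
            rw [← Matrix.transpose_transpose (y u v), h0, Matrix.transpose_zero])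
          obtain ⟨c, hc, hc1⟩ := hH.2.2.1 (y u v)ᵀ (ht _ haD) hta
          have hc2 : c * (y u v)ᵀ = 1 := mul_eq_one_comm.1 hc1
          have hb : g * c ∈ 𝔻 := 𝔻.mul_mem hg hc
          have h4 := h ⟨(u, w), by simp only; omega, by rw [Fin.lt_def]; simp only; omega,
            by simp only; omega⟩ (by
              simp only
              refine np_of hk (fun n => if n = 0 then 1 else if n = (w : ℕ) then -1 else 0) ?_ ?_
              · rw [W_lt _ hu, W_lt _ hwp, if_pos h1, if_neg hw0, if_pos rfl]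
                norm_num
              · rw [hvw, W_lt _ hu, W_sg, W_lt _ hwp, if_pos h1, if_neg hw0, if_pos rfl]
                norm_num) (g * c) (mem_A hu (by simp only; omega) hb)
          have h5 := congrFun (congrFun h4 u) (sg p d u)
          simp only at h5
          have h6 : y w (sg p d u) = -(y u v)ᵀ := by
            have := hy.2.1 u v
            rw [hvw, sg_sg] at this
            rw [this, hvw]
          rw [Matrix.sub_apply, col2 _ _ _ (ne1 (by omega)), row1, h6, ← hvw, mul_neg,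
            sub_neg_eq_add] at h5
          have e1 : g * c * (y u v)ᵀ = g := by rw [mul_assoc, hc2, mul_one]
          have e2 : y u v * (g * c)ᵀ = -g := by
            rw [← tmul, e1, hg2]
          have h7 : -(y u v * (g * c)ᵀ) + g * c * (y u v)ᵀ = 0 := h5
          rw [e1, e2, neg_neg, ← two_smul ℝ g] at h7
          exact hg0 ((smul_eq_zero.1 h7).resolve_left two_ne_zero)
  · -- row `u > 0`
    have hWv : W p d (fun n => if n = 0 then (1 : ℝ) else 0) v = 0 := by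
      rcases lt_or_ge (v : ℕ) p with h2 | h2
      · rw [W_lt _ h2, if_neg (by omega)]
      · rcases lt_or_ge (v : ℕ) (p + d) with h3 | h3
        · rw [W_md _ h2 h3]
        · rw [W_ge _ h3, if_neg (by omega), neg_zero]
    have hWu : W p d (fun n => if n = 0 then (1 : ℝ) else 0) u = 0 := by
      rw [W_lt _ hu, if_neg h1]
    have hWz : W p d (fun n => if n = 0 then (1 : ℝ) else 0) z = 1 := by
      rw [W_lt _ (by omega), if_pos hz]
    have hrow : ∀ w, y z w = 0 := by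
      intro w
      by_contra hw
      have h2 := hyr z w hw
      have h3 := LinearMap.congr_fun h2 (wv p d k (fun n => if n = 0 then (1 : ℝ) else 0))
      rw [rq_wv, rq_wv, hWu, hWv, hWz, sub_zero] at h3
      have hzw : ¬ (w : ℕ) ≤ z := fun h4 => hw (hy.1.2 z w h4)
      have h5 : W p d (fun n => if n = 0 then (1 : ℝ) else 0) w ≤ 0 := by
        rcases lt_or_ge (w : ℕ) p with h2 | h2
        · rw [W_lt _ h2, if_neg (by omega)]
        · rcases lt_or_ge (w : ℕ) (p + d) with h3 | h3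
          · rw [W_md _ h2 h3]
          · rw [W_ge _ h3]
            split_ifs <;> norm_num
      linarith
    have h3 := h ⟨(z, u), by simp only; omega, by rw [Fin.lt_def]; simp only; omega,
      by simp only; omega⟩ (by
        simp only
        refine np_of hk (fun n => if n = 0 then 1 else 0) ?_ ?_
        · rw [hWz, hWu]; norm_num
        · rw [hWu, hWv, sub_zero]) 1
      (mem_A (by simp only; omega) (by simp only; omega) 𝔻.one_mem)
    have h4 := congrFun (congrFun h3 z) v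
    simp only at h4
    have h5 : (y * TT k z u 1) z v = 0 := by
      rw [Matrix.mul_apply]
      exact Finset.sum_eq_zero fun w _ => by rw [hrow w, zero_mul]
    rw [Matrix.sub_apply, h5, row1, one_mul, zero_sub] at h4
    exact hne (neg_eq_zero.1 h4)

theorem TT_root (hk : 0 < k) (i j u v : Fin (2 * p + d)) (a : Matrix (Fin k) (Fin k) ℝ)
    (h : TT k i j a u v ≠ 0) : rq hk u v = rq hk i j := by
  rw [TT_apply] at h
  by_cases h1 : u = i ∧ v = j
  · rw [h1.1, h1.2]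
  · rw [if_neg h1] at h
    by_cases h2 : u = sg p d j ∧ v = sg p d i
    · rw [h2.1, h2.2, rq_rev]
    · rw [if_neg h2] at h
      exact absurd rfl h

theorem Bs.climb_e (B : Bs p d 𝔻) (hk : 0 < k) (hH : Herm 𝔻 1) (hp : 2 ≤ p) (hd : 1 ≤ d)
    (z : Fin (2 * p + d)) (hz : (z : ℕ) = 0) (l : B.I)
    (hl : rq hk l.1.1.1 l.1.1.2 ≠ rq hk z (sg p d z))
    (x : Matrix (Fin ((2 * p + d) * k)) (Fin ((2 * p + d) * k)) ℝ)
    (hx : x ∈ Submodule.span ℝ ((fun l : B.I => blk k (2 * p + d) (B.T l)) ''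
      {l' | rq hk l'.1.1.1 l'.1.1.2 = rq hk l.1.1.1 l.1.1.2}))
    (h : ∀ w : B.I, (∀ c : ℝ, rq hk w.1.1.1 w.1.1.2 ≠ c • rq hk l.1.1.1 l.1.1.2) →
      x * blk k (2 * p + d) (B.T w) - blk k (2 * p + d) (B.T w) * x = 0) : x = 0 := by
  have ht := hH.2.1
  obtain ⟨y, hy, rfl, hyr⟩ : ∃ y ∈ nH p d 𝔻, x = blk k (2 * p + d) y ∧
      ∀ u v, y u v ≠ 0 → rq hk u v = rq hk l.1.1.1 l.1.1.2 := by
    clear h
    induction hx using Submodule.span_induction with
    | mem y hy =>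
      obtain ⟨l', h1, rfl⟩ := hy
      refine ⟨B.T l', TT_mem ht l'.1.2.2.1 (QI_md l'.1) (B.mem l'.1 l'.2), rfl, fun u v h2 => ?_⟩
      rw [TT_root hk _ _ _ _ _ h2]
      exact h1
    | zero => exact ⟨0, Submodule.zero_mem _, by rw [map_zero], fun u v h => absurd rfl h⟩
    | add y z _ _ hy hz =>
      obtain ⟨a, ha, rfl, ha2⟩ := hy
      obtain ⟨b, hb, rfl, hb2⟩ := hz
      refine ⟨a + b, Submodule.add_mem _ ha hb, by rw [map_add], fun u v h2 => ?_⟩
      by_cases h3 : a u v = 0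
      · refine hb2 u v fun h4 => h2 ?_
        rw [Matrix.add_apply, h3, h4, add_zero]
      · exact ha2 u v h3
    | smul c y _ hy =>
      obtain ⟨a, ha, rfl, ha2⟩ := hy
      refine ⟨c • a, Submodule.smul_mem _ _ ha, by rw [map_smul], fun u v h2 => ?_⟩
      refine ha2 u v fun h4 => h2 ?_
      rw [Matrix.smul_apply, h4, smul_zero]
  have h1 : y = 0 := by
    refine climb_aux hk hH hp hd z hz _ hl hy hyr fun q' hq' b hb => ?_
    rw [← B.sp q'] at hb
    induction hb using Submodule.span_induction with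
    | mem y' hy' =>
      obtain ⟨β, rfl⟩ := hy'
      have h2 := h ⟨q', β⟩ hq'
      rw [← map_mul, ← map_mul, ← map_sub] at h2
      exact (blk k (2 * p + d)).injective (by rw [map_zero]; exact h2)
    | zero => rw [map_zero, mul_zero, zero_mul, sub_zero]
    | add y z _ _ hy hz => rw [map_add, mul_add, add_mul, add_sub_add_comm, hy, hz, add_zero]
    | smul c y _ hy => rw [map_smul, mul_smul_comm, smul_mul_assoc, ← smul_sub, hy, smul_zero]
  rw [h1, map_zero]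

theorem scal_e (κ : Unit → ℝ) (hk : 0 < k) : ∃ S : bH p d k →ₗ[ℝ] bH p d k,
    ∀ (i j : Fin (2 * p + d)) (a : bH p d k), rq hk i j (S a) = κ () * rq hk i j a :=
  ⟨κ () • LinearMap.id, fun i j a => by
    rw [LinearMap.smul_apply, LinearMap.id_apply, map_smul, smul_eq_mul]⟩

/-- the root vectors of the basis are root vectors -/
theorem Bs.isRt (B : Bs p d 𝔻) (hk : 0 < k) (ht : ∀ a ∈ 𝔻, aᵀ ∈ 𝔻) (l : B.I) :
    IsRt (datH p d 𝔻) (rq hk l.1.1.1 l.1.1.2 : bH p d k →ₗ[ℝ] ℝ) :=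
  ⟨blk k (2 * p + d) (B.T l), ⟨⟨_, TT_mem ht l.1.2.2.1 (QI_md l.1) (B.mem l.1 l.2), rfl⟩,
    B.wt_e hk l⟩, B.lin_e.ne_zero l⟩

theorem Bs.ray_e (B : Bs p d 𝔻) (hk : 0 < k) (ht : ∀ a ∈ 𝔻, aᵀ ∈ 𝔻)
    (hR : Ray (datH p d 𝔻)) (l l' : B.I) (c : ℝ)
    (h : rq hk l.1.1.1 l.1.1.2 = c • rq hk l'.1.1.1 l'.1.1.2) : c = 1 / 2 ∨ c = 1 ∨ c = 2 := by
  have h1 := B.isRt hk ht l'
  have h2 := B.isRt hk ht l
  rw [h] at h2
  rcases hR _ c h1 h2 with h3 | h3 | h3
  · exact Or.inr (Or.inl h3)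
  · exact Or.inr (Or.inr h3)
  · exact Or.inl h3

/-- **MBH**. -/
theorem mbh (_ehm : EhmStmt) (ryh : RyhStmt) : MbhStmt := by
  intro p d k 𝔻 hk hp hd hH
  have : Nonempty (Fin k) := ⟨⟨0, hk⟩⟩
  obtain ⟨B⟩ := exists_Bs p d hH
  have ht := hH.2.1
  have hR := (ryh p d k 𝔻 hk ht hH.2.2.1).ray
  obtain ⟨g, hg, hg0, hg2⟩ := exists_g hH
  let z : Fin (2 * p + d) := ⟨0, by omega⟩
  have hz : (z : ℕ) = 0 := rfl
  have hsz := sgL (p := p) (d := d) (i := z) (by rw [hz]; omega)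
  let o : Fin (2 * p + d) := ⟨1, by omega⟩
  have ho : (o : ℕ) = 1 := rfl
  let q0 : QI p d := ⟨(z, sg p d z), by simp only; omega, by rw [Fin.lt_def]; simp only; omega, by
    simp only; omega⟩
  let q1 : QI p d := ⟨(z, o), by simp only; omega, by rw [Fin.lt_def]; simp only; omega, by
    simp only; omega⟩
  obtain ⟨β0⟩ := B.nonempty (q := q0) (a := g) ⟨hg, fun _ => hg2⟩ hg0
  obtain ⟨β1⟩ := B.nonempty (q := q1) (a := 1)
    (mem_A (i := z) (j := o) (by omega) (by omega) 𝔻.one_mem) one_ne_zero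
  have hq01 : rq (p := p) (d := d) hk q1.1.1 q1.1.2 ≠ rq hk q0.1.1 q0.1.2 := by
    intro h
    have h1 := LinearMap.congr_fun h (wv p d k (fun n => if n = 0 then (1 : ℝ) else 0))
    rw [rq_wv, rq_wv] at h1
    have e1 : W p d (fun n => if n = 0 then (1 : ℝ) else 0) q1.1.1 = 1 := by
      show W p d (fun n => if n = 0 then (1 : ℝ) else 0) z = 1
      rw [W_lt _ (by omega : (z : ℕ) < p), if_pos hz]
    have e2 : W p d (fun n => if n = 0 then (1 : ℝ) else 0) q1.1.2 = 0 := by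
      show W p d (fun n => if n = 0 then (1 : ℝ) else 0) o = 0
      rw [W_lt _ (by omega : (o : ℕ) < p), if_neg (by omega)]
    have e4 : W p d (fun n => if n = 0 then (1 : ℝ) else 0) q0.1.2 = -1 := by
      show W p d (fun n => if n = 0 then (1 : ℝ) else 0) (sg p d z) = -1
      rw [W_sg, W_lt _ (by omega : (z : ℕ) < p), if_pos hz]
    rw [e1, e2, e4] at h1
    norm_num at h1
  exact ⟨{
    ι := B.I
    fin := inferInstance
    dec := Classical.decEq _
    e := fun l => blk k (2 * p + d) (B.T l)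
    rat := B.rat_e
    span_e := B.span_e ht
    lin := B.lin_e
    rt := fun l => (rq hk l.1.1.1 l.1.1.2 : bH p d k →ₗ[ℝ] ℝ)
    wt := B.wt_e hk
    pos := ⟨wv p d k (fun n => (p : ℝ) - n), fun l => val_pos hk l.1⟩
    sep := sep_e B hk hd
    ray := fun l l' c h => B.ray_e hk ht hR l l' c h
    gen := fun t s l l' hll p' q' hp' hq' h hts =>
      B.gen_e hk hH hd t s l l' hll p' q' hp' hq' h hts
    J := Unit
    comp := fun _ => ()
    top := fun _ => ⟨q0, β0⟩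
    comp_top := fun _ => rfl
    comp_rt := fun _ _ _ _ => rfl
    climb := by
      intro l hl x hx h
      exact B.climb_e hk hH hp hd z hz l hl x hx h
    rank1 := by
      intro l h
      exfalso
      have h1 := h ⟨q0, β0⟩ rfl
      have h2 := h ⟨q1, β1⟩ rfl
      exact hq01 (h2.trans h1.symm)
    scal := by
      intro κ _
      obtain ⟨S, hS⟩ := scal_e (p := p) (d := d) (k := k) κ hk
      exact ⟨S, fun l a => hS _ _ a⟩ }⟩

end Pool.Agent.QSB.H51M

namespace Pool.Agent.QSB.H51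

open Pool.Agent.QSB

/-- **MBH**. -/
theorem mbh (ehm : EhmStmt) (ryh : RyhStmt) : MbhStmt := H51M.mbh ehm ryh

end Pool.Agent.QSB.H51
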