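import Pool.Agent.QSB.StmtsT

/-!
# Squad QSB, row SYD: the datum of `SL_n (𝔻)` satisfies `Sym`
-/

set_option autoImplicit false

namespace Pool.Agent.QSB.H51

open Matrix Finset Pool.Agent.QSX Pool.Agent.QSN Pool.Agent.QSB

section syd

variable {k n : ℕ}

/-- transpose in blocks -/
theorem syd_tr (x : Matrix (Fin n) (Fin n) (Matrix (Fin k) (Fin k) ℝ)) :
    (blk k n x)ᵀ = blk k n (Matrix.of fun i j => (x j i)ᵀ) := by
  apply blk_ext
  intro i i' j j'
  rw [Matrix.transpose_apply, blk_apply, blk_apply, Matrix.of_apply, Matrix.transpose_apply]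

theorem syd_trace_blk (x : Matrix (Fin n) (Fin n) (Matrix (Fin k) (Fin k) ℝ)) :
    Matrix.trace (blk k n x) = ∑ i, Matrix.trace (x i i) := by
  unfold Matrix.trace
  rw [← Equiv.sum_comp finProdFinEquiv, Fintype.sum_prod_type]
  refine Finset.sum_congr rfl fun i _ => Finset.sum_congr rfl fun j _ => ?_
  rw [Matrix.diag_apply, Matrix.diag_apply, blk_apply]

theorem syd_trace_cst (d : Fin n → ℝ) :
    Matrix.trace (diagonal (cst k n d)) = k * ∑ i, d i := by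
  rw [← blk_dia, syd_trace_blk, Finset.mul_sum]
  refine Finset.sum_congr rfl fun i _ => ?_
  rw [dia, diagonal_apply_eq, Matrix.trace_smul, Matrix.trace_one, Fintype.card_fin, smul_eq_mul,
    mul_comm]

/-- the Lie algebra `sl_n (𝔻)` -/
noncomputable def gD (n : ℕ) {k : ℕ} (𝔻 : Subalgebra ℝ (Matrix (Fin k) (Fin k) ℝ)) :
    Submodule ℝ (Matrix (Fin (n * k)) (Fin (n * k)) ℝ) where
  carrier := {z | (∃ x : Matrix (Fin n) (Fin n) (Matrix (Fin k) (Fin k) ℝ),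
    (∀ i j, x i j ∈ 𝔻) ∧ z = blk k n x) ∧ Matrix.trace z = 0}
  add_mem' := by
    rintro _ _ ⟨⟨x, hx, rfl⟩, h1⟩ ⟨⟨y, hy, rfl⟩, h2⟩
    refine ⟨⟨x + y, fun i j => ?_, (map_add _ _ _).symm⟩, ?_⟩
    · rw [Matrix.add_apply]; exact 𝔻.add_mem (hx i j) (hy i j)
    · rw [Matrix.trace_add, h1, h2, add_zero]
  zero_mem' := ⟨⟨0, fun _ _ => 𝔻.zero_mem, (map_zero _).symm⟩, Matrix.trace_zero _ _⟩
  smul_mem' := by
    rintro r _ ⟨⟨x, hx, rfl⟩, h1⟩
    refine ⟨⟨r • x, fun i j => ?_, (map_smul _ _ _).symm⟩, ?_⟩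
    · rw [Matrix.smul_apply]; exact 𝔻.smul_mem (hx i j) _
    · rw [Matrix.trace_smul, h1, smul_zero]

variable {𝔻 : Subalgebra ℝ (Matrix (Fin k) (Fin k) ℝ)}

theorem mem_gD {z : Matrix (Fin (n * k)) (Fin (n * k)) ℝ} : z ∈ gD n 𝔻 ↔
    (∃ x : Matrix (Fin n) (Fin n) (Matrix (Fin k) (Fin k) ℝ),
      (∀ i j, x i j ∈ 𝔻) ∧ z = blk k n x) ∧ Matrix.trace z = 0 := Iff.rfl

theorem gD_lie {z w : Matrix (Fin (n * k)) (Fin (n * k)) ℝ} (hz : z ∈ gD n 𝔻)
    (hw : w ∈ gD n 𝔻) : z * w - w * z ∈ gD n 𝔻 := by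
  obtain ⟨⟨x, hx, rfl⟩, h1⟩ := mem_gD.1 hz
  obtain ⟨⟨y, hy, rfl⟩, h2⟩ := mem_gD.1 hw
  refine mem_gD.2 ⟨⟨x * y - y * x, fun i j => ?_, by rw [map_sub, map_mul, map_mul]⟩, ?_⟩
  · rw [Matrix.sub_apply, Matrix.mul_apply, Matrix.mul_apply]
    exact 𝔻.sub_mem (𝔻.sum_mem fun l _ => 𝔻.mul_mem (hx i l) (hy l j))
      (𝔻.sum_mem fun l _ => 𝔻.mul_mem (hy i l) (hx l j))
  · rw [Matrix.trace_sub, Matrix.trace_mul_comm, sub_self]

theorem gD_tr (ht : ∀ a ∈ 𝔻, aᵀ ∈ 𝔻) {z : Matrix (Fin (n * k)) (Fin (n * k)) ℝ}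
    (hz : z ∈ gD n 𝔻) : zᵀ ∈ gD n 𝔻 := by
  obtain ⟨⟨x, hx, rfl⟩, h1⟩ := mem_gD.1 hz
  refine mem_gD.2 ⟨⟨_, fun i j => ?_, syd_tr x⟩, by rw [Matrix.trace_transpose, h1]⟩
  rw [Matrix.of_apply]
  exact ht _ (hx j i)

/-- a matrix whose diagonal blocks are symmetric elements of `𝔻` and whose other blocks vanish -/
theorem syd_diag (dsc : DscStmt) (hk : 0 < k) (hD : Div 𝔻)
    (x : Matrix (Fin n) (Fin n) (Matrix (Fin k) (Fin k) ℝ)) (hx : ∀ i j, x i j ∈ 𝔻)
    (h1 : ∀ i j, i ≠ j → x i j = 0) (h2 : ∀ i, (x i i)ᵀ = x i i) :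
    ∃ r : Fin n → ℝ, blk k n x = diagonal (cst k n r) := by
  choose r hr using fun i => dsc k 𝔻 hk hD (x i i) (hx i i) (h2 i)
  refine ⟨r, ?_⟩
  rw [← blk_dia]
  congr 1
  refine Matrix.ext fun i j => ?_
  by_cases h : i = j
  · subst h
    rw [dia, diagonal_apply_eq, hr]
  · rw [h1 i j h, dia, diagonal_apply_ne _ h]

theorem gD_b (dsc : DscStmt) (hk : 0 < k) (hD : Div 𝔻) (c : Fin (n * k) → ℝ) :
    c ∈ bD n k ↔ diagonal c ∈ gD n 𝔻 := by
  have hk' : (k : ℝ) ≠ 0 := by exact_mod_cast hk.ne'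
  constructor
  · rintro ⟨d, hd, rfl⟩
    refine mem_gD.2 ⟨⟨dia k d, fun i j => ?_, (blk_dia d).symm⟩, ?_⟩
    · rw [dia]
      by_cases h : i = j
      · subst h
        rw [diagonal_apply_eq]
        exact 𝔻.smul_mem 𝔻.one_mem _
      · rw [diagonal_apply_ne _ h]
        exact 𝔻.zero_mem
    · rw [syd_trace_cst, hd, mul_zero]
  · intro h
    obtain ⟨⟨x, hx, h1⟩, h2⟩ := mem_gD.1 h
    have e : ∀ i i' j j', x i i' j j' =
        diagonal c (finProdFinEquiv (i, j)) (finProdFinEquiv (i', j')) := by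
      intro i i' j j'
      rw [h1, blk_apply]
    obtain ⟨r, hr⟩ := syd_diag dsc hk hD x hx (fun i i' hne => by
      refine Matrix.ext fun j j' => ?_
      rw [e, diagonal_apply_ne, Matrix.zero_apply]
      intro h3
      exact hne (Prod.ext_iff.1 (finProdFinEquiv.injective h3)).1) (fun i => by
      refine Matrix.ext fun j j' => ?_
      rw [Matrix.transpose_apply, e, e]
      by_cases h3 : j = j'
      · rw [h3]
      · rw [diagonal_apply_ne, diagonal_apply_ne]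
        · intro h4
          exact h3 (Prod.ext_iff.1 (finProdFinEquiv.injective h4)).2
        · intro h4
          exact h3 (Prod.ext_iff.1 (finProdFinEquiv.injective h4)).2.symm)
    rw [← h1] at hr
    have hc : c = cst k n r := Matrix.diagonal_injective hr
    refine ⟨r, ?_, hc⟩
    rw [hc, syd_trace_cst] at h2
    exact (mul_eq_zero.1 h2).resolve_left hk'

/-- the regular element -/
noncomputable def sydA (n : ℕ) (i : Fin n) : ℝ := ((n : ℝ) - 1) / 2 - ((i : ℕ) : ℝ)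

theorem sydA_sum (n : ℕ) : ∑ i, sydA n i = 0 := by
  have h : ∀ i : Fin n, sydA n i = - sydA n (Fin.rev i) := by
    intro i
    unfold sydA
    rw [Fin.val_rev, Nat.cast_sub (by have := i.2; omega)]
    push_cast
    ring
  have h1 : ∑ i, sydA n i = - ∑ i, sydA n i := by
    calc ∑ i, sydA n i = ∑ i, - sydA n (Fin.rev i) := Finset.sum_congr rfl fun i _ => h i
      _ = - ∑ i, sydA n (Fin.rev i) := by rw [Finset.sum_neg_distrib]
      _ = - ∑ i, sydA n i := by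
          congr 1
          exact Equiv.sum_comp Fin.revPerm (fun i => sydA n i)
  linarith

theorem sydA_lt {i j : Fin n} : sydA n j < sydA n i ↔ i < j := by
  unfold sydA
  rw [Fin.lt_def]
  constructor
  · intro h
    have h1 : ((i : ℕ) : ℝ) < ((j : ℕ) : ℝ) := by linarith
    exact_mod_cast h1
  · intro h
    have h1 : ((i : ℕ) : ℝ) < ((j : ℕ) : ℝ) := by exact_mod_cast h
    linarith

theorem gD_n (x : Matrix (Fin (n * k)) (Fin (n * k)) ℝ) : x ∈ nD n 𝔻 ↔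
    x ∈ gD n 𝔻 ∧ ∀ i j, x i j ≠ 0 → cst k n (sydA n) j < cst k n (sydA n) i := by
  constructor
  · rintro ⟨x, hx, rfl⟩
    refine ⟨mem_gD.2 ⟨⟨x, hx.1, rfl⟩, ?_⟩, fun a b hab => ?_⟩
    · rw [syd_trace_blk]
      refine Finset.sum_eq_zero fun i _ => ?_
      rw [hx.2 i i le_rfl, Matrix.trace_zero]
    · obtain ⟨⟨i, j⟩, rfl⟩ := finProdFinEquiv.surjective a
      obtain ⟨⟨i', j'⟩, rfl⟩ := finProdFinEquiv.surjective b
      rw [cst_apply, cst_apply, sydA_lt]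
      by_contra hc
      apply hab
      rw [blk_apply, hx.2 i i' (not_lt.1 hc), Matrix.zero_apply]
  · rintro ⟨h1, h2⟩
    obtain ⟨⟨x, hx, rfl⟩, h3⟩ := mem_gD.1 h1
    refine ⟨x, ⟨hx, fun i j hij => ?_⟩, rfl⟩
    refine Matrix.ext fun a b => ?_
    by_contra hc
    rw [Matrix.zero_apply] at hc
    have h4 := h2 (finProdFinEquiv (i, a)) (finProdFinEquiv (j, b)) (by rw [blk_apply]; exact hc)
    rw [cst_apply, cst_apply, sydA_lt] at h4
    exact absurd h4 (not_lt.2 hij)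

theorem gD_reg (dsc : DscStmt) (hk : 0 < k) (hD : Div 𝔻)
    (x : Matrix (Fin (n * k)) (Fin (n * k)) ℝ) (hx : x ∈ gD n 𝔻) (ht : xᵀ = x)
    (h : diagonal (cst k n (sydA n)) * x = x * diagonal (cst k n (sydA n))) :
    ∃ c, x = diagonal c := by
  obtain ⟨⟨x, hxD, rfl⟩, h3⟩ := mem_gD.1 hx
  have h4 : ∀ i i', i ≠ i' → x i i' = 0 := by
    intro i i' hne
    refine Matrix.ext fun j j' => ?_
    have h5 := congrFun (congrFun h (finProdFinEquiv (i, j))) (finProdFinEquiv (i', j'))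
    rw [Matrix.diagonal_mul, Matrix.mul_diagonal, cst_apply, cst_apply, blk_apply] at h5
    have h6 : (sydA n i - sydA n i') * x i i' j j' = 0 := by linarith
    have h7 : sydA n i - sydA n i' ≠ 0 := by
      intro h8
      rcases lt_or_gt_of_ne hne with h9 | h9
      · have := sydA_lt.2 h9
        linarith
      · have := sydA_lt.2 h9
        linarith
    rw [Matrix.zero_apply]
    exact (mul_eq_zero.1 h6).resolve_left h7
  obtain ⟨r, hr⟩ := syd_diag dsc hk hD x hxD h4 (fun i => by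
    refine Matrix.ext fun j j' => ?_
    have h5 := congrFun (congrFun ht (finProdFinEquiv (i, j))) (finProdFinEquiv (i, j'))
    rw [Matrix.transpose_apply, blk_apply, blk_apply] at h5
    rw [Matrix.transpose_apply]
    exact h5)
  exact ⟨_, hr⟩

end syd

/-- **SYD** -/
theorem syd (dsc : DscStmt) : SydStmt := by
  intro k n 𝔻 hk hD
  exact ⟨{
    g := gD n 𝔻
    lie := fun x hx y hy => gD_lie hx hy
    tr := fun x hx => gD_tr hD.1 hx
    b_mem := fun c => gD_b dsc hk hD c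
    a₀ := ⟨cst k n (sydA n), sydA n, sydA_sum n, rfl⟩
    n_mem := fun x => gD_n x
    reg := fun x hx ht h => gD_reg dsc hk hD x hx ht h }⟩

end Pool.Agent.QSB.H51
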