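import Pool.Agent.QSB.StmtsA

/-!
# Squad QSB, row KNR: the group `K t` is normalised by the root elements of the ray of `t`
-/

set_option autoImplicit false

namespace Pool.Agent.QSB.H51

open Matrix Finset Pool.Agent.QSX Pool.Agent.QSN Pool.Agent.QSB

theorem knr : Pool.Agent.QSB.KnrStmt := by
  intro X hX t s y hs h hh
  let g : (Matrix (Fin X.m) (Fin X.m) ℝ)ˣ := ue ((y : ℝ) • hX.e s)
  have key : hX.K t ≤ (hX.K t).comap (MulAut.conj g).toMonoidHom := by
    unfold MB.K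
    rw [Subgroup.closure_le]
    rintro _ ⟨m, z, hm, rfl⟩
    rw [SetLike.mem_coe, Subgroup.mem_comap]
    have hsm : hX.Np s m := hX.np_symm ((hX.np_congr hs).2 hm)
    have hc := hX.com s m hsm (y : ℝ) (z : ℝ)
    have e1 : (MulAut.conj g).toMonoidHom (ue ((z : ℝ) • hX.e m)) =
        ((hX.L s m).map fun t =>
          ue (((t.2.2.2 : ℝ) * (y : ℝ) ^ t.2.1 * (z : ℝ) ^ t.2.2.1) • hX.e t.1)).prod *
          ue ((z : ℝ) • hX.e m) := by
      rw [← hc, inv_mul_cancel_right]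
      rfl
    rw [e1]
    refine Subgroup.mul_mem _ ?_ (Subgroup.subset_closure ⟨m, z, hm, rfl⟩)
    refine Subgroup.list_prod_mem _ ?_
    intro x hx
    rw [List.mem_map] at hx
    obtain ⟨r, hr, rfl⟩ := hx
    refine Subgroup.subset_closure ⟨r.1, r.2.2.2 * y ^ r.2.1 * z ^ r.2.2.1, ?_, ?_⟩
    · exact (hX.np_congr hs).1 (hX.t_ne s m hsm r hr).1
    · push_cast
      rfl
  exact key hh

end Pool.Agent.QSB.H51
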