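import Pool.Agent.QSB.StmtsE
import Pool.Agent.Helper30_QSN.MSU

/-!
# Squad QSB, row MBH, part 1: root vectors of `SU (p, p + d)`, `Sp (p, p + d)`
-/

set_option autoImplicit false

namespace Pool.Agent.QSB.H51M

open Matrix Finset Pool.Agent.QSX Pool.Agent.QSN Pool.Agent.QSB
open Pool.Agent.QSX.H10 (rd rd_cst)
open Pool.Agent.QSN.H30M (rat_basis tmul)

variable {p d k : ℕ}

/-! ### the involution -/

theorem sgL {i : Fin (2 * p + d)} (h : (i : ℕ) < p) :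
    ((sg p d i : Fin (2 * p + d)) : ℕ) = 2 * p + d - (i + 1) := by
  rw [sg_out (by unfold Md; omega), Fin.val_rev]

theorem sgR {i : Fin (2 * p + d)} (h : p + d ≤ (i : ℕ)) :
    ((sg p d i : Fin (2 * p + d)) : ℕ) = 2 * p + d - (i + 1) := by
  rw [sg_out (by unfold Md; omega), Fin.val_rev]

theorem sgM {i : Fin (2 * p + d)} (h : p ≤ (i : ℕ)) (h' : (i : ℕ) < p + d) :
    ((sg p d i : Fin (2 * p + d)) : ℕ) = i := by
  rw [sg_mid ⟨h, h'⟩]

theorem sg_inj {i j : Fin (2 * p + d)} (h : sg p d i = sg p d j) : i = j := by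
  rw [← sg_sg i, h, sg_sg]

theorem sg_lt {i j : Fin (2 * p + d)} (h : i < j) (hm : ¬ (Md p d i ∧ Md p d j)) :
    sg p d j < sg p d i := by
  have hi := i.2
  have hj := j.2
  rw [Fin.lt_def] at h
  by_cases h1 : Md p d i <;> by_cases h2 : Md p d j
  · exact absurd ⟨h1, h2⟩ hm
  · rw [sg_mid h1, sg_out h2, Fin.lt_def, Fin.val_rev]
    unfold Md at h1 h2
    omega
  · rw [sg_out h1, sg_mid h2, Fin.lt_def, Fin.val_rev]
    unfold Md at h1 h2
    omega
  · rw [sg_out h1, sg_out h2, Fin.lt_def, Fin.val_rev, Fin.val_rev]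
    omega

theorem md_sg {i : Fin (2 * p + d)} : Md p d (sg p d i) ↔ Md p d i := by
  by_cases h : Md p d i
  · rw [sg_mid h]
  · rw [sg_out h, md_rev]

theorem ne1 {x y : Fin (2 * p + d)} (h : (x : ℕ) ≠ y) : x ≠ y := fun h' => h (by rw [h'])

/-! ### root vectors -/

/-- root vectors -/
noncomputable def TT (k : ℕ) (i j : Fin (2 * p + d)) : Matrix (Fin k) (Fin k) ℝ →ₗ[ℝ]
    Matrix (Fin (2 * p + d)) (Fin (2 * p + d)) (Matrix (Fin k) (Fin k) ℝ) where
  toFun a := Matrix.of fun u v => if u = i ∧ v = j then a else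
    if u = sg p d j ∧ v = sg p d i then -aᵀ else 0
  map_add' a b := by
    refine Matrix.ext fun u v => ?_
    rw [Matrix.add_apply, Matrix.of_apply, Matrix.of_apply, Matrix.of_apply]
    by_cases h1 : u = i ∧ v = j
    · rw [if_pos h1, if_pos h1, if_pos h1]
    · by_cases h2 : u = sg p d j ∧ v = sg p d i
      · rw [if_neg h1, if_neg h1, if_neg h1, if_pos h2, if_pos h2, if_pos h2,
          Matrix.transpose_add, neg_add]
      · rw [if_neg h1, if_neg h1, if_neg h1, if_neg h2, if_neg h2, if_neg h2, add_zero]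
  map_smul' r a := by
    refine Matrix.ext fun u v => ?_
    rw [RingHom.id_apply, Matrix.smul_apply, Matrix.of_apply, Matrix.of_apply]
    by_cases h1 : u = i ∧ v = j
    · rw [if_pos h1, if_pos h1]
    · by_cases h2 : u = sg p d j ∧ v = sg p d i
      · rw [if_neg h1, if_neg h1, if_pos h2, if_pos h2, Matrix.transpose_smul, smul_neg]
      · rw [if_neg h1, if_neg h1, if_neg h2, if_neg h2, smul_zero]

theorem TT_apply (i j u v : Fin (2 * p + d)) (a : Matrix (Fin k) (Fin k) ℝ) :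
    TT k i j a u v = if u = i ∧ v = j then a else
      if u = sg p d j ∧ v = sg p d i then -aᵀ else 0 := rfl

theorem TT_r1 (i j w : Fin (2 * p + d)) (a : Matrix (Fin k) (Fin k) ℝ) :
    TT k i j a i w = if w = j then a else 0 := by
  rw [TT_apply]
  by_cases h : w = j
  · rw [if_pos ⟨rfl, h⟩, if_pos h]
  · rw [if_neg (fun hh => h hh.2), if_neg h, if_neg]
    rintro ⟨h1, h2⟩
    apply h
    rw [h2, h1, sg_sg]

theorem TT_r2 (i j w : Fin (2 * p + d)) (h : sg p d j ≠ i) (a : Matrix (Fin k) (Fin k) ℝ) :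
    TT k i j a (sg p d j) w = if w = sg p d i then -aᵀ else 0 := by
  rw [TT_apply, if_neg (fun hh => h hh.1)]
  by_cases h1 : w = sg p d i
  · rw [if_pos ⟨rfl, h1⟩, if_pos h1]
  · rw [if_neg (fun hh => h1 hh.2), if_neg h1]

theorem TT_r0 (i j u w : Fin (2 * p + d)) (h1 : u ≠ i) (h2 : u ≠ sg p d j)
    (a : Matrix (Fin k) (Fin k) ℝ) : TT k i j a u w = 0 := by
  rw [TT_apply, if_neg (fun hh => h1 hh.1), if_neg (fun hh => h2 hh.1)]

theorem row1 (i j v : Fin (2 * p + d)) (a : Matrix (Fin k) (Fin k) ℝ)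
    (M : Matrix (Fin (2 * p + d)) (Fin (2 * p + d)) (Matrix (Fin k) (Fin k) ℝ)) :
    (TT k i j a * M) i v = a * M j v := by
  rw [Matrix.mul_apply, Finset.sum_eq_single j]
  · rw [TT_r1, if_pos rfl]
  · intro w _ hw
    rw [TT_r1, if_neg hw, zero_mul]
  · intro h
    exact absurd (mem_univ _) h

theorem row2 (i j v : Fin (2 * p + d)) (h : sg p d j ≠ i) (a : Matrix (Fin k) (Fin k) ℝ)
    (M : Matrix (Fin (2 * p + d)) (Fin (2 * p + d)) (Matrix (Fin k) (Fin k) ℝ)) :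
    (TT k i j a * M) (sg p d j) v = -(aᵀ * M (sg p d i) v) := by
  rw [Matrix.mul_apply, Finset.sum_eq_single (sg p d i)]
  · rw [TT_r2 _ _ _ h, if_pos rfl, neg_mul]
  · intro w _ hw
    rw [TT_r2 _ _ _ h, if_neg hw, zero_mul]
  · intro h
    exact absurd (mem_univ _) h

theorem row0 (i j u v : Fin (2 * p + d)) (h1 : u ≠ i) (h2 : u ≠ sg p d j)
    (a : Matrix (Fin k) (Fin k) ℝ)
    (M : Matrix (Fin (2 * p + d)) (Fin (2 * p + d)) (Matrix (Fin k) (Fin k) ℝ)) :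
    (TT k i j a * M) u v = 0 := by
  rw [Matrix.mul_apply]
  refine Finset.sum_eq_zero fun w _ => ?_
  rw [TT_r0 _ _ _ _ h1 h2, zero_mul]

theorem TT_c1 (i j w : Fin (2 * p + d)) (a : Matrix (Fin k) (Fin k) ℝ) :
    TT k i j a w j = if w = i then a else 0 := by
  rw [TT_apply]
  by_cases h : w = i
  · rw [if_pos ⟨h, rfl⟩, if_pos h]
  · rw [if_neg (fun hh => h hh.1), if_neg h, if_neg]
    rintro ⟨h1, h2⟩
    apply h
    rw [h1, h2, sg_sg]

theorem TT_c2 (i j w : Fin (2 * p + d)) (h : sg p d i ≠ j) (a : Matrix (Fin k) (Fin k) ℝ) :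
    TT k i j a w (sg p d i) = if w = sg p d j then -aᵀ else 0 := by
  rw [TT_apply, if_neg (fun hh => h hh.2)]
  by_cases h1 : w = sg p d j
  · rw [if_pos ⟨h1, rfl⟩, if_pos h1]
  · rw [if_neg (fun hh => h1 hh.1), if_neg h1]

theorem col1 (i j u : Fin (2 * p + d)) (a : Matrix (Fin k) (Fin k) ℝ)
    (M : Matrix (Fin (2 * p + d)) (Fin (2 * p + d)) (Matrix (Fin k) (Fin k) ℝ)) :
    (M * TT k i j a) u j = M u i * a := by
  rw [Matrix.mul_apply, Finset.sum_eq_single i]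
  · rw [TT_c1, if_pos rfl]
  · intro w _ hw
    rw [TT_c1, if_neg hw, mul_zero]
  · intro h
    exact absurd (mem_univ _) h

theorem col2 (i j u : Fin (2 * p + d)) (h : sg p d i ≠ j) (a : Matrix (Fin k) (Fin k) ℝ)
    (M : Matrix (Fin (2 * p + d)) (Fin (2 * p + d)) (Matrix (Fin k) (Fin k) ℝ)) :
    (M * TT k i j a) u (sg p d i) = -(M u (sg p d j) * aᵀ) := by
  rw [Matrix.mul_apply, Finset.sum_eq_single (sg p d j)]
  · rw [TT_c2 _ _ _ h, if_pos rfl, mul_neg]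
  · intro w _ hw
    rw [TT_c2 _ _ _ h, if_neg hw, mul_zero]
  · intro h
    exact absurd (mem_univ _) h

/-- the space of the root `q` -/
def VV (p d : ℕ) {k : ℕ} (𝔻 : Subalgebra ℝ (Matrix (Fin k) (Fin k) ℝ)) (i j : Fin (2 * p + d)) :
    Submodule ℝ (Matrix (Fin k) (Fin k) ℝ) where
  carrier := {a | a ∈ 𝔻 ∧ (j = sg p d i → aᵀ = -a)}
  add_mem' := by
    intro a b ha hb
    refine ⟨𝔻.add_mem ha.1 hb.1, fun h => ?_⟩
    rw [Matrix.transpose_add, ha.2 h, hb.2 h, neg_add]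
  zero_mem' := ⟨𝔻.zero_mem, fun _ => by rw [Matrix.transpose_zero, neg_zero]⟩
  smul_mem' := by
    intro r a ha
    refine ⟨𝔻.smul_mem ha.1 r, fun h => ?_⟩
    rw [Matrix.transpose_smul, ha.2 h, smul_neg]

variable {𝔻 : Subalgebra ℝ (Matrix (Fin k) (Fin k) ℝ)}

theorem TT_mem (ht : ∀ a ∈ 𝔻, aᵀ ∈ 𝔻) {i j : Fin (2 * p + d)} (hij : i < j)
    (hm : ¬ (Md p d i ∧ Md p d j))
    {a : Matrix (Fin k) (Fin k) ℝ} (ha : a ∈ VV p d 𝔻 i j) : TT k i j a ∈ nH p d 𝔻 := by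
  have hs := sg_lt hij hm
  refine ⟨⟨fun u v => ?_, fun u v huv => ?_⟩, fun u v => ?_, fun u v hu hv => ?_⟩
  · rw [TT_apply]
    split_ifs
    · exact ha.1
    · exact 𝔻.neg_mem (ht a ha.1)
    · exact 𝔻.zero_mem
  · rw [TT_apply, if_neg, if_neg]
    · rintro ⟨rfl, rfl⟩
      exact absurd huv (not_le.2 hs)
    · rintro ⟨rfl, rfl⟩
      exact absurd huv (not_le.2 hij)
  · rw [TT_apply, TT_apply]
    by_cases h1 : u = i ∧ v = j
    · obtain ⟨rfl, rfl⟩ := h1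
      rw [if_pos (c := u = u ∧ v = v) ⟨rfl, rfl⟩]
      by_cases h2 : sg p d v = u ∧ sg p d u = v
      · rw [if_pos h2, ha.2 h2.2.symm, neg_neg]
      · rw [if_neg h2, if_pos ⟨rfl, rfl⟩]
    · by_cases h2 : u = sg p d j ∧ v = sg p d i
      · have h3 : sg p d v = i ∧ sg p d u = j := by
          rw [h2.1, h2.2, sg_sg, sg_sg]
          exact ⟨rfl, rfl⟩
        rw [if_pos h3, if_neg h1, if_pos h2, Matrix.transpose_neg,
          Matrix.transpose_transpose, neg_neg]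
      · have h3 : ¬ (sg p d v = i ∧ sg p d u = j) := by
          rintro ⟨h4, h5⟩
          refine h2 ⟨?_, ?_⟩
          · rw [← h5, sg_sg]
          · rw [← h4, sg_sg]
        have h4 : ¬ (sg p d v = sg p d j ∧ sg p d u = sg p d i) := by
          rintro ⟨h5, h6⟩
          exact h1 ⟨sg_inj h6, sg_inj h5⟩
        rw [if_neg h3, if_neg h4, if_neg h1, if_neg h2, Matrix.transpose_zero, neg_zero]
  · rw [TT_apply, if_neg, if_neg]
    · rintro ⟨rfl, rfl⟩
      exact hm ⟨md_sg.1 hv, md_sg.1 hu⟩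
    · rintro ⟨rfl, rfl⟩
      exact hm ⟨hu, hv⟩

/-- the fundamental positions -/
abbrev QI (p d : ℕ) : Type := {q : Fin (2 * p + d) × Fin (2 * p + d) //
  (q.1 : ℕ) < p ∧ q.1 < q.2 ∧ (q.1 : ℕ) + q.2 + 1 ≤ 2 * p + d}

theorem QI_md (l : QI p d) : ¬ (Md p d l.1.1 ∧ Md p d l.1.2) := by
  rintro ⟨h, -⟩
  have := l.2.1
  unfold Md at h
  omega

/-- the mirror image of a fundamental position -/
theorem mirror {i j a b : Fin (2 * p + d)} (h1 : (i : ℕ) < p) (_h2 : i < j)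
    (ha : (a : ℕ) < p) (hab : (a : ℕ) + b + 1 ≤ 2 * p + d) (h3 : a = sg p d j)
    (h4 : b = sg p d i) (h5 : (i : ℕ) + j + 1 ≤ 2 * p + d) : a = i ∧ b = j := by
  have hi := i.2
  have hj := j.2
  have e1 := sgL h1
  rw [h4, e1] at hab
  have hj3 : p + d ≤ (j : ℕ) := by
    by_contra hc
    rcases lt_or_ge (j : ℕ) p with h6 | h6
    · have := sgL h6
      rw [h3, this] at ha
      omega
    · have := sgM (p := p) (d := d) h6 (by omega)
      rw [h3, this] at ha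
      omega
  have e2 := sgR hj3
  have e3 : (a : ℕ) = 2 * p + d - (j + 1) := by rw [h3, e2]
  have e4 : (b : ℕ) = 2 * p + d - (i + 1) := by rw [h4, e1]
  constructor
  · exact Fin.ext (by omega)
  · exact Fin.ext (by omega)

/-- the entries in the fundamental region -/
theorem TT_fund (l : QI p d) (a b : Fin (2 * p + d)) (ha : (a : ℕ) < p)
    (hab : (a : ℕ) + b + 1 ≤ 2 * p + d) (x : Matrix (Fin k) (Fin k) ℝ) :
    TT k l.1.1 l.1.2 x a b = if a = l.1.1 ∧ b = l.1.2 then x else 0 := by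
  obtain ⟨⟨i, j⟩, h1, h3, h4⟩ := l
  simp only at h1 h3 h4
  rw [TT_apply]
  by_cases h5 : a = i ∧ b = j
  · rw [if_pos h5, if_pos h5]
  · rw [if_neg h5, if_neg (c := a = sg p d j ∧ b = sg p d i), if_neg h5]
    rintro ⟨h6, h7⟩
    exact h5 (mirror h1 h3 ha hab h6 h7 h4)

theorem TT_fund' (l l' : QI p d) (x : Matrix (Fin k) (Fin k) ℝ) :
    TT k l.1.1 l.1.2 x l'.1.1 l'.1.2 = if l' = l then x else 0 := by
  rw [TT_fund l _ _ l'.2.1 l'.2.2.2]
  by_cases h : l' = l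
  · subst h
    rw [if_pos ⟨rfl, rfl⟩, if_pos rfl]
  · rw [if_neg h, if_neg]
    rintro ⟨h1, h2⟩
    exact h (Subtype.ext (Prod.ext h1 h2))

/-- an element of `nH` is determined by the fundamental entries -/
theorem ext_fund
    {x y : Matrix (Fin (2 * p + d)) (Fin (2 * p + d)) (Matrix (Fin k) (Fin k) ℝ)}
    (hx : x ∈ nH p d 𝔻) (hy : y ∈ nH p d 𝔻)
    (h : ∀ l : QI p d, x l.1.1 l.1.2 = y l.1.1 l.1.2) : x = y := by
  have hf : ∀ a b : Fin (2 * p + d), (a : ℕ) < p → a < b → (a : ℕ) + b + 1 ≤ 2 * p + d →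
      x a b = y a b := fun a b h1 h2 h3 => h ⟨(a, b), h1, h2, h3⟩
  refine Matrix.ext fun a b => ?_
  have ha := a.2
  have hb := b.2
  rcases le_or_gt b a with h1 | h1
  · rw [hx.1.2 a b h1, hy.1.2 a b h1]
  · by_cases hmm : Md p d a ∧ Md p d b
    · rw [hx.2.2 a b hmm.1 hmm.2, hy.2.2 a b hmm.1 hmm.2]
    · by_cases h2 : (a : ℕ) < p ∧ (a : ℕ) + b + 1 ≤ 2 * p + d
      · exact hf a b h2.1 h1 h2.2
      · have h3 := hx.2.1 a b
        have h4 := hy.2.1 a b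
        have hlt := sg_lt h1 hmm
        rw [Fin.lt_def] at h1
        have hb3 : p + d ≤ (b : ℕ) := by
          by_contra hc
          apply hmm
          unfold Md
          omega
        have e2 := sgR hb3
        have h5 : x (sg p d b) (sg p d a) = y (sg p d b) (sg p d a) := by
          refine hf _ _ (by omega) hlt ?_
          rw [e2]
          rcases lt_or_ge (a : ℕ) p with h6 | h6
          · rw [sgL h6]; omega
          · rcases lt_or_ge (a : ℕ) (p + d) with h7 | h7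
            · rw [sgM h6 h7]; omega
            · rw [sgR h7]; omega
        rw [h3, h4] at h5
        exact Matrix.transpose_injective (neg_injective h5)

theorem nH_lie
    {x y : Matrix (Fin (2 * p + d)) (Fin (2 * p + d)) (Matrix (Fin k) (Fin k) ℝ)}
    (hx : x ∈ nH p d 𝔻) (hy : y ∈ nH p d 𝔻) : x * y - y * x ∈ nH p d 𝔻 := by
  obtain ⟨z, hz, h⟩ := (datH p d 𝔻).lie (blk k (2 * p + d) x) ⟨x, hx, rfl⟩
    (blk k (2 * p + d) y) ⟨y, hy, rfl⟩
  have h1 : blk k (2 * p + d) (x * y - y * x) = blk k (2 * p + d) z := by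
    rw [← h, map_sub, map_mul, map_mul]
    rfl
  rw [(blk k (2 * p + d)).injective h1]
  exact hz

theorem nmd {i j : Fin (2 * p + d)} (h : (i : ℕ) < p) : ¬ (Md p d i ∧ Md p d j) := by
  rintro ⟨h1, -⟩
  unfold Md at h1
  omega

theorem nsg {i j : Fin (2 * p + d)} (hi : (i : ℕ) < p) (hj : (j : ℕ) < p + d) :
    j ≠ sg p d i := by
  intro h
  have := congrArg Fin.val h
  rw [sgL hi] at this
  omega

/-- types (A) and (B) -/
theorem br1 (ht : ∀ a ∈ 𝔻, aᵀ ∈ 𝔻) {i h j : Fin (2 * p + d)} (h1 : i < h) (h2 : h < j)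
    (hh : (h : ℕ) < p) (h3 : (j : ℕ) < p + d) {a : Matrix (Fin k) (Fin k) ℝ} (ha : a ∈ 𝔻) :
    TT k i h 1 * TT k h j a - TT k h j a * TT k i h 1 = TT k i j a := by
  rw [Fin.lt_def] at h1 h2
  have hi := i.2
  have hj := j.2
  have hip : (i : ℕ) < p := by omega
  have e1 : TT k i h (1 : Matrix (Fin k) (Fin k) ℝ) ∈ nH p d 𝔻 := TT_mem ht h1 (nmd hip)
    ⟨𝔻.one_mem, fun h0 => absurd h0 (nsg hip (by omega))⟩
  have e2 : TT k h j a ∈ nH p d 𝔻 := TT_mem ht h2 (nmd hh)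
    ⟨ha, fun h0 => absurd h0 (nsg hh h3)⟩
  have e3 : TT k i j a ∈ nH p d 𝔻 := TT_mem ht (by rw [Fin.lt_def]; omega) (nmd hip)
    ⟨ha, fun h0 => absurd h0 (nsg hip h3)⟩
  refine ext_fund (nH_lie e1 e2) e3 ?_
  rintro ⟨⟨u, v⟩, hu, h4, h5⟩
  simp only at hu h4 h5 ⊢
  rw [Fin.lt_def] at h4
  have hsj : p ≤ ((sg p d j : Fin (2 * p + d)) : ℕ) := by
    rcases lt_or_ge (j : ℕ) p with h6 | h6
    · rw [sgL h6]; omega
    · rw [sgM h6 h3]; exact h6
  have hsh : p + d ≤ ((sg p d h : Fin (2 * p + d)) : ℕ) := by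
    rw [sgL hh]; omega
  have e4 : (TT k h j a * TT k i h 1) u v = 0 := by
    by_cases huh : u = h
    · subst huh
      rw [row1, TT_r0 _ _ _ _ (ne1 (by omega)) (ne1 (by omega)), mul_zero]
    · rw [row0 _ _ _ _ huh (ne1 (by omega))]
  rw [Matrix.sub_apply, e4, sub_zero]
  by_cases hui : u = i
  · subst hui
    rw [row1, TT_r1, TT_r1, one_mul]
  · rw [row0 _ _ _ _ hui (ne1 (by omega)), TT_r0 _ _ _ _ hui (ne1 (by omega))]

/-- type (C) -/
theorem br2 (ht : ∀ a ∈ 𝔻, aᵀ ∈ 𝔻) {i h r : Fin (2 * p + d)} (h1 : i < h)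
    (hh : (h : ℕ) < p) (hr : p ≤ (r : ℕ)) (hr' : (r : ℕ) < p + d)
    {a b : Matrix (Fin k) (Fin k) ℝ} (ha : a ∈ 𝔻) (hb : b ∈ 𝔻) :
    TT k i r a * TT k h r b - TT k h r b * TT k i r a = TT k i (sg p d h) (-(a * bᵀ)) := by
  rw [Fin.lt_def] at h1
  have hi := i.2
  have hj := r.2
  have hip : (i : ℕ) < p := by omega
  have e1 : TT k i r a ∈ nH p d 𝔻 := TT_mem ht (by rw [Fin.lt_def]; omega) (nmd hip)
    ⟨ha, fun h0 => absurd h0 (nsg hip hr')⟩
  have e2 : TT k h r b ∈ nH p d 𝔻 := TT_mem ht (by rw [Fin.lt_def]; omega) (nmd hh)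
    ⟨hb, fun h0 => absurd h0 (nsg hh hr')⟩
  have hsh := sgL hh
  have hsi := sgL hip
  have hsr : sg p d r = r := sg_mid ⟨hr, hr'⟩
  have e3 : TT k i (sg p d h) (-(a * bᵀ)) ∈ nH p d 𝔻 :=
    TT_mem ht (by rw [Fin.lt_def]; omega) (nmd hip)
    ⟨𝔻.neg_mem (𝔻.mul_mem ha (ht b hb)), fun h0 => by
      have := congrArg Fin.val (sg_inj h0); omega⟩
  refine ext_fund (nH_lie e1 e2) e3 ?_
  rintro ⟨⟨u, v⟩, hu, h4, h5⟩
  simp only at hu h4 h5 ⊢
  rw [Fin.lt_def] at h4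
  rw [Matrix.sub_apply]
  by_cases hui : u = i
  · subst hui
    rw [row1, row0 h r u v (ne1 (by omega)) (by rw [hsr]; exact ne1 (by omega)), sub_zero, TT_r1]
    have e5 := TT_r2 h r v (by rw [hsr]; exact ne1 (by omega)) b
    rw [hsr] at e5
    rw [e5]
    split_ifs
    · rw [mul_neg]
    · rw [mul_zero]
  · rw [row0 i r u v hui (by rw [hsr]; exact ne1 (by omega)), zero_sub]
    have e6 : (TT k h r b * TT k i r a) u v = 0 := by
      by_cases huh : u = h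
      · subst huh
        rw [row1]
        have e5 := TT_r2 i r v (by rw [hsr]; exact ne1 (by omega)) a
        rw [hsr] at e5
        rw [e5, if_neg (ne1 (by omega)), mul_zero]
      · rw [row0 h r u v huh (by rw [hsr]; exact ne1 (by omega))]
    rw [e6, neg_zero, TT_apply, if_neg (fun h0 => hui h0.1), if_neg]
    rintro ⟨h6, h7⟩
    rw [sg_sg] at h6
    have := congrArg Fin.val h6
    have := congrArg Fin.val h7
    omega

/-- type (L) -/
theorem br3 (ht : ∀ a ∈ 𝔻, aᵀ ∈ 𝔻) {i h : Fin (2 * p + d)} (h1 : i < h)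
    (hh : (h : ℕ) < p) {g : Matrix (Fin k) (Fin k) ℝ} (hg : g ∈ 𝔻) (hg2 : gᵀ = -g) :
    TT k i h 1 * TT k i (sg p d h) ((1 / 2 : ℝ) • g) -
      TT k i (sg p d h) ((1 / 2 : ℝ) • g) * TT k i h 1 = TT k i (sg p d i) g := by
  rw [Fin.lt_def] at h1
  have hi := i.2
  have hip : (i : ℕ) < p := by omega
  have hsh := sgL hh
  have hsi := sgL hip
  have e1 : TT k i h (1 : Matrix (Fin k) (Fin k) ℝ) ∈ nH p d 𝔻 := TT_mem ht h1 (nmd hip)
    ⟨𝔻.one_mem, fun h0 => absurd h0 (nsg hip (by omega))⟩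
  have e2 : TT k i (sg p d h) ((1 / 2 : ℝ) • g) ∈ nH p d 𝔻 :=
    TT_mem ht (by rw [Fin.lt_def]; omega) (nmd hip)
    ⟨𝔻.smul_mem hg _, fun h0 => by
      have := congrArg Fin.val (sg_inj h0); omega⟩
  have e3 : TT k i (sg p d i) g ∈ nH p d 𝔻 :=
    TT_mem ht (by rw [Fin.lt_def]; omega) (nmd hip) ⟨hg, fun _ => hg2⟩
  have n1 : sg p d (sg p d h) ≠ i := by rw [sg_sg]; exact ne1 (by omega)
  have n2 : sg p d h ≠ i := ne1 (by omega)
  refine ext_fund (nH_lie e1 e2) e3 ?_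
  rintro ⟨⟨u, v⟩, hu, h4, h5⟩
  simp only at hu h4 h5 ⊢
  rw [Fin.lt_def] at h4
  rw [Matrix.sub_apply]
  by_cases hui : u = i
  · subst hui
    rw [row1, row1, TT_r1, one_mul, TT_r2 _ _ _ n2]
    have e5 := TT_r2 u (sg p d h) v n1 ((1 / 2 : ℝ) • g)
    rw [sg_sg] at e5
    rw [e5]
    by_cases hv : v = sg p d u
    · rw [if_pos hv, if_pos hv, if_pos hv, Matrix.transpose_one, mul_neg, mul_one,
        Matrix.transpose_smul, hg2, smul_neg, neg_neg, sub_neg_eq_add, ← add_smul]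
      norm_num
    · rw [if_neg hv, if_neg hv, if_neg hv, mul_zero, sub_zero]
  · have e6 : (TT k i (sg p d h) ((1 / 2 : ℝ) • g) * TT k i h 1) u v = 0 := by
      by_cases huh : u = h
      · have e5 := row2 i (sg p d h) v n1 ((1 / 2 : ℝ) • g) (TT k i h 1)
        rw [sg_sg] at e5
        rw [huh, e5, TT_r0 _ _ _ _ (ne1 (by omega)) (ne1 (by omega)), mul_zero, neg_zero]
      · rw [row0 _ _ _ _ hui (by rw [sg_sg]; exact huh)]
    rw [e6, row0 _ _ _ _ hui (ne1 (by omega)), sub_zero,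
      TT_r0 _ _ _ _ hui (by rw [sg_sg]; exact hui)]

end Pool.Agent.QSB.H51M
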