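import Pool.Agent.Helper51_QSB.MBHA

/-!
# Squad QSB, row MBH, part 2: roots and bases
-/

set_option autoImplicit false

namespace Pool.Agent.QSB.H51M

open Matrix Finset Pool.Agent.QSX Pool.Agent.QSN Pool.Agent.QSB
open Pool.Agent.QSX.H10 (rd rd_cst)
open Pool.Agent.QSN.H30M (rat_basis tmul)

variable {p d k : ℕ} {𝔻 : Subalgebra ℝ (Matrix (Fin k) (Fin k) ℝ)}

theorem VV_basis (hH : Herm 𝔻 1) (i j : Fin (2 * p + d)) :
    ∃ (n : ℕ) (b : Fin n → Matrix (Fin k) (Fin k) ℝ), LinearIndependent ℝ b ∧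
      Submodule.span ℝ (Set.range b) = VV p d 𝔻 i j ∧ ∀ β i j, ∃ q : ℚ, b β i j = (q : ℝ) := by
  obtain ⟨⟨S, hS, hS2⟩, ht, -, -⟩ := hH
  by_cases h : j = sg p d i
  · refine rat_basis _ ((fun z => z - zᵀ) '' S) ?_ ?_
    · rintro _ ⟨z, hz, rfl⟩ u v
      obtain ⟨q1, h1⟩ := hS z hz u v
      obtain ⟨q2, h2⟩ := hS z hz v u
      refine ⟨q1 - q2, ?_⟩
      show z u v - z v u = _
      rw [h1, h2]
      push_cast
      ring
    · apply le_antisymm
      · rw [Submodule.span_le]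
        rintro _ ⟨z, hz, rfl⟩
        have hzD : z ∈ 𝔻 := by
          have : z ∈ Subalgebra.toSubmodule 𝔻 := hS2 ▸ Submodule.subset_span hz
          exact this
        refine ⟨𝔻.sub_mem hzD (ht z hzD), fun _ => ?_⟩
        show (z - zᵀ)ᵀ = -(z - zᵀ)
        rw [Matrix.transpose_sub, Matrix.transpose_transpose, neg_sub]
      · intro x hx
        have h1 : x ∈ Submodule.span ℝ S := by
          rw [hS2]; exact hx.1
        have h2 := hx.2 h
        have h3 : ∀ y ∈ Submodule.span ℝ S,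
            y - yᵀ ∈ Submodule.span ℝ ((fun z => z - zᵀ) '' S) := by
          intro y hy
          induction hy using Submodule.span_induction with
          | mem y hy => exact Submodule.subset_span ⟨y, hy, rfl⟩
          | zero => rw [Matrix.transpose_zero, sub_zero]; exact Submodule.zero_mem _
          | add y z _ _ hy hz =>
            have e : y + z - (y + z)ᵀ = (y - yᵀ) + (z - zᵀ) := by
              rw [Matrix.transpose_add]; abel
            rw [e]; exact Submodule.add_mem _ hy hz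
          | smul r y _ hy =>
            have e : r • y - (r • y)ᵀ = r • (y - yᵀ) := by
              rw [Matrix.transpose_smul, smul_sub]
            rw [e]; exact Submodule.smul_mem _ _ hy
        have h4 := h3 x h1
        rw [h2, sub_neg_eq_add, ← two_smul ℝ x] at h4
        have h5 := Submodule.smul_mem _ (1 / 2 : ℝ) h4
        rwa [smul_smul, show (1 / 2 : ℝ) * 2 = 1 by norm_num, one_smul] at h5
  · refine rat_basis _ S hS ?_
    rw [hS2]
    ext x
    exact ⟨fun hx => ⟨hx, fun hh => absurd hh h⟩, fun hx => hx.1⟩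

/-- a nonzero element of `H` -/
theorem exists_g (hH : Herm 𝔻 1) : ∃ g ∈ 𝔻, g ≠ 0 ∧ gᵀ = -g := by
  obtain ⟨-, -, -, g, hg, hg0, hg2⟩ := hH
  exact ⟨g, hg, hg0, by rw [hg2, neg_smul, one_smul]⟩

/-! ### the roots -/

/-- the vectors `c` of the datum -/
def bH (p d k : ℕ) : Submodule ℝ (Fin ((2 * p + d) * k) → ℝ) where
  carrier := {c | ∃ c' : Fin (2 * p + d) → ℝ, (∀ i, c' (sg p d i) = - c' i) ∧
    c = cst k (2 * p + d) c'}
  add_mem' := by
    rintro _ _ ⟨c, hc, rfl⟩ ⟨c', hc', rfl⟩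
    refine ⟨c + c', fun i => ?_, rfl⟩
    rw [Pi.add_apply, Pi.add_apply, hc i, hc' i, neg_add]
  zero_mem' := ⟨0, fun i => by simp, rfl⟩
  smul_mem' := by
    rintro r _ ⟨c, hc, rfl⟩
    refine ⟨r • c, fun i => ?_, rfl⟩
    rw [Pi.smul_apply, Pi.smul_apply, hc i, smul_neg]

/-- the root of `(i, j)` -/
noncomputable def rq (hk : 0 < k) (i j : Fin (2 * p + d)) : bH p d k →ₗ[ℝ] ℝ :=
  ((LinearMap.proj i : (Fin (2 * p + d) → ℝ) →ₗ[ℝ] ℝ) - LinearMap.proj j).comp
    ((rd hk).comp (bH p d k).subtype)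

theorem rq_apply (hk : 0 < k) (i j : Fin (2 * p + d)) (c : Fin (2 * p + d) → ℝ)
    (hc : ∀ i, c (sg p d i) = - c i) :
    rq hk i j ⟨cst k (2 * p + d) c, c, hc, rfl⟩ = c i - c j := by
  show rd hk (cst k (2 * p + d) c) i - rd hk (cst k (2 * p + d) c) j = _
  rw [rd_cst]

theorem rq_ext (hk : 0 < k) {f g : bH p d k →ₗ[ℝ] ℝ}
    (h : ∀ (c : Fin (2 * p + d) → ℝ) (hc : ∀ i, c (sg p d i) = - c i),
      f ⟨cst k (2 * p + d) c, c, hc, rfl⟩ = g ⟨cst k (2 * p + d) c, c, hc, rfl⟩) : f = g := by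
  refine LinearMap.ext ?_
  rintro ⟨_, c, hc, rfl⟩
  exact h c hc

theorem rq_add (hk : 0 < k) (i h j : Fin (2 * p + d)) :
    rq hk i h + rq hk h j = rq hk i j := by
  refine rq_ext hk fun c hc => ?_
  rw [LinearMap.add_apply, rq_apply hk _ _ c hc, rq_apply hk _ _ c hc, rq_apply hk _ _ c hc]
  ring

theorem rq_rev (hk : 0 < k) (i j : Fin (2 * p + d)) :
    rq hk (sg p d j) (sg p d i) = rq hk i j := by
  refine rq_ext hk fun c hc => ?_
  rw [rq_apply hk _ _ c hc, rq_apply hk _ _ c hc, hc, hc]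
  ring

/-- the vector with the free coordinates `f` -/
def W (p d : ℕ) (f : ℕ → ℝ) (i : Fin (2 * p + d)) : ℝ :=
  if (i : ℕ) < p then f i else if p + d ≤ (i : ℕ) then - f (2 * p + d - (i + 1)) else 0

theorem W_lt (f : ℕ → ℝ) {i : Fin (2 * p + d)} (h : (i : ℕ) < p) : W p d f i = f i := if_pos h

theorem W_md (f : ℕ → ℝ) {i : Fin (2 * p + d)} (h : p ≤ (i : ℕ)) (h' : (i : ℕ) < p + d) :
    W p d f i = 0 := by
  unfold W
  rw [if_neg (by omega), if_neg (by omega)]

theorem W_ge (f : ℕ → ℝ) {i : Fin (2 * p + d)} (h : p + d ≤ (i : ℕ)) :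
    W p d f i = - f (2 * p + d - (i + 1)) := by
  unfold W
  rw [if_neg (by omega), if_pos h]

theorem W_sg (f : ℕ → ℝ) (i : Fin (2 * p + d)) : W p d f (sg p d i) = - W p d f i := by
  have hi := i.2
  rcases lt_or_ge (i : ℕ) p with h1 | h1
  · have h2 := sgL h1
    rw [W_lt f h1, W_ge f (by omega), h2]
    congr 2
    omega
  · rcases lt_or_ge (i : ℕ) (p + d) with h3 | h3
    · have h2 := sgM h1 h3
      rw [W_md f h1 h3, W_md f (by omega) (by omega), neg_zero]
    · have h2 := sgR h3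
      rw [W_ge f h3, W_lt f (by omega), h2, neg_neg]

/-- the element of `b` with the free coordinates `f` -/
noncomputable def wv (p d k : ℕ) (f : ℕ → ℝ) : bH p d k :=
  ⟨cst k (2 * p + d) (W p d f), W p d f, W_sg f, rfl⟩

theorem rq_wv (hk : 0 < k) (f : ℕ → ℝ) (i j : Fin (2 * p + d)) :
    rq hk i j (wv p d k f) = W p d f i - W p d f j :=
  rq_apply hk i j (W p d f) (W_sg f)

/-- not proportional -/
theorem np_of (hk : 0 < k) {i j i' j' : Fin (2 * p + d)} (f : ℕ → ℝ)
    (h1 : W p d f i - W p d f j ≠ 0) (h2 : W p d f i' - W p d f j' = 0) (c : ℝ) :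
    rq hk i j ≠ c • rq hk i' j' := by
  intro h
  have h3 := LinearMap.congr_fun h (wv p d k f)
  rw [LinearMap.smul_apply, rq_wv, rq_wv, h2, smul_zero] at h3
  exact h1 h3

theorem dia_TT (c : Fin (2 * p + d) → ℝ) (hc : ∀ i, c (sg p d i) = - c i)
    (i j : Fin (2 * p + d)) (a : Matrix (Fin k) (Fin k) ℝ) :
    dia k c * TT k i j a - TT k i j a * dia k c = (c i - c j) • TT k i j a := by
  refine Matrix.ext fun u v => ?_
  rw [Matrix.sub_apply, dia, Matrix.diagonal_mul, Matrix.mul_diagonal, Matrix.smul_mul,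
    Matrix.mul_smul, Matrix.one_mul, Matrix.mul_one, ← sub_smul, Matrix.smul_apply, TT_apply]
  by_cases h1 : u = i ∧ v = j
  · rw [if_pos h1, h1.1, h1.2]
  · by_cases h2 : u = sg p d j ∧ v = sg p d i
    · rw [if_neg h1, if_pos h2, h2.1, h2.2, hc, hc]
      congr 1
      ring
    · rw [if_neg h1, if_neg h2, smul_zero, smul_zero]

/-- rational bases of the root spaces -/
structure Bs (p d : ℕ) {k : ℕ} (𝔻 : Subalgebra ℝ (Matrix (Fin k) (Fin k) ℝ)) where
  n : QI p d → ℕ
  b : (q : QI p d) → Fin (n q) → Matrix (Fin k) (Fin k) ℝ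
  li : ∀ q, LinearIndependent ℝ (b q)
  sp : ∀ q, Submodule.span ℝ (Set.range (b q)) = VV p d 𝔻 q.1.1 q.1.2
  rat : ∀ q β i j, ∃ r : ℚ, b q β i j = (r : ℝ)

theorem exists_Bs (p d : ℕ) (hH : Herm 𝔻 1) : Nonempty (Bs p d 𝔻) := by
  choose n b h1 h2 h3 using fun q : QI p d => VV_basis (p := p) (d := d) hH q.1.1 q.1.2
  exact ⟨⟨n, b, h1, h2, h3⟩⟩

section

variable (B : Bs p d 𝔻)

/-- the index set -/
abbrev Bs.I : Type := Σ q : QI p d, Fin (B.n q)

/-- the root vectors -/
noncomputable def Bs.T (l : B.I) :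
    Matrix (Fin (2 * p + d)) (Fin (2 * p + d)) (Matrix (Fin k) (Fin k) ℝ) :=
  TT k l.1.1.1 l.1.1.2 (B.b l.1 l.2)

theorem Bs.mem (q : QI p d) (β : Fin (B.n q)) : B.b q β ∈ VV p d 𝔻 q.1.1 q.1.2 := by
  rw [← B.sp q]
  exact Submodule.subset_span ⟨β, rfl⟩

theorem Bs.sum_entry (g : B.I → ℝ) (q : QI p d) :
    (∑ l : B.I, g l • B.T l) q.1.1 q.1.2 = ∑ β, g ⟨q, β⟩ • B.b q β := by
  rw [Fintype.sum_sigma, Matrix.sum_apply, Finset.sum_eq_single q]
  · rw [Matrix.sum_apply]
    refine Finset.sum_congr rfl fun β _ => ?_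
    rw [Matrix.smul_apply, Bs.T, TT_fund', if_pos rfl]
  · intro q' _ hne
    rw [Matrix.sum_apply]
    refine Finset.sum_eq_zero fun β _ => ?_
    rw [Matrix.smul_apply, Bs.T, TT_fund', if_neg (Ne.symm hne), smul_zero]
  · intro h
    exact absurd (mem_univ _) h

theorem Bs.lin_T : LinearIndependent ℝ B.T := by
  rw [Fintype.linearIndependent_iff]
  rintro g hg ⟨q, β⟩
  have h1 := congrFun (congrFun hg q.1.1) q.1.2
  rw [B.sum_entry] at h1
  exact Fintype.linearIndependent_iff.1 (B.li q) (fun β => g ⟨q, β⟩) h1 β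

theorem Bs.TT_span (q : QI p d) {a : Matrix (Fin k) (Fin k) ℝ}
    (ha : a ∈ VV p d 𝔻 q.1.1 q.1.2) :
    TT k q.1.1 q.1.2 a ∈ Submodule.span ℝ (Set.range B.T) := by
  rw [← B.sp q] at ha
  induction ha using Submodule.span_induction with
  | mem x hx =>
    obtain ⟨β, rfl⟩ := hx
    exact Submodule.subset_span ⟨⟨q, β⟩, rfl⟩
  | zero => rw [map_zero]; exact Submodule.zero_mem _
  | add x y _ _ hx hy => rw [map_add]; exact Submodule.add_mem _ hx hy
  | smul c x _ hx => rw [map_smul]; exact Submodule.smul_mem _ _ hx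

theorem entry_VV
    {x : Matrix (Fin (2 * p + d)) (Fin (2 * p + d)) (Matrix (Fin k) (Fin k) ℝ)}
    (hx : x ∈ nH p d 𝔻) (i j : Fin (2 * p + d)) : x i j ∈ VV p d 𝔻 i j := by
  refine ⟨hx.1.1 i j, fun h => ?_⟩
  have h1 := hx.2.1 i j
  rw [h, sg_sg] at h1
  rw [h]
  exact (neg_eq_iff_eq_neg.2 h1).symm

theorem Bs.span_T (ht : ∀ a ∈ 𝔻, aᵀ ∈ 𝔻) :
    Submodule.span ℝ (Set.range B.T) = nH p d 𝔻 := by
  apply le_antisymm
  · rw [Submodule.span_le]
    rintro _ ⟨l, rfl⟩
    exact TT_mem ht l.1.2.2.1 (QI_md l.1) (B.mem l.1 l.2)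
  · intro x hx
    have h3 : x = ∑ q : QI p d, TT k q.1.1 q.1.2 (x q.1.1 q.1.2) := by
      refine ext_fund hx ?_ fun l => ?_
      · exact Submodule.sum_mem _ fun q _ => TT_mem ht q.2.2.1 (QI_md q) (entry_VV hx _ _)
      · rw [Matrix.sum_apply, Finset.sum_eq_single l]
        · rw [TT_fund', if_pos rfl]
        · intro q' _ hne
          rw [TT_fund', if_neg (Ne.symm hne)]
        · intro h
          exact absurd (mem_univ _) h
    rw [h3]
    exact Submodule.sum_mem _ fun q _ => B.TT_span q (entry_VV hx _ _)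

/-- the brackets of root vectors of non proportional roots with sum `rq i j` -/
def Bs.Br (hk : 0 < k) (i j : Fin (2 * p + d)) :
    Set (Matrix (Fin (2 * p + d)) (Fin (2 * p + d)) (Matrix (Fin k) (Fin k) ℝ)) :=
  {z | ∃ w w' : B.I, (∀ c : ℝ, rq hk w.1.1.1 w.1.1.2 ≠ c • rq hk w'.1.1.1 w'.1.1.2) ∧
    rq hk w.1.1.1 w.1.1.2 + rq hk w'.1.1.1 w'.1.1.2 = rq hk i j ∧
    z = B.T w * B.T w' - B.T w' * B.T w}

theorem Bs.br_span (hk : 0 < k) {i j : Fin (2 * p + d)} (q1 q2 : QI p d)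
    (hne : ∀ c : ℝ, rq hk q1.1.1 q1.1.2 ≠ c • rq hk q2.1.1 q2.1.2)
    (hq : rq hk q1.1.1 q1.1.2 + rq hk q2.1.1 q2.1.2 = rq hk i j)
    {a b : Matrix (Fin k) (Fin k) ℝ} (ha : a ∈ VV p d 𝔻 q1.1.1 q1.1.2)
    (hb : b ∈ VV p d 𝔻 q2.1.1 q2.1.2) :
    TT k q1.1.1 q1.1.2 a * TT k q2.1.1 q2.1.2 b -
      TT k q2.1.1 q2.1.2 b * TT k q1.1.1 q1.1.2 a ∈ Submodule.span ℝ (B.Br hk i j) := by
  rw [← B.sp q1] at ha
  rw [← B.sp q2] at hb
  induction ha using Submodule.span_induction with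
  | mem x hx =>
    obtain ⟨β, rfl⟩ := hx
    induction hb using Submodule.span_induction with
    | mem y hy =>
      obtain ⟨β', rfl⟩ := hy
      exact Submodule.subset_span ⟨⟨q1, β⟩, ⟨q2, β'⟩, hne, hq, rfl⟩
    | zero => rw [map_zero, mul_zero, zero_mul, sub_zero]; exact Submodule.zero_mem _
    | add x y _ _ hx hy =>
      rw [map_add, mul_add, add_mul, add_sub_add_comm]
      exact Submodule.add_mem _ hx hy
    | smul c x _ hx =>
      rw [map_smul, mul_smul_comm, smul_mul_assoc, ← smul_sub]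
      exact Submodule.smul_mem _ _ hx
  | zero => rw [map_zero, mul_zero, zero_mul, sub_zero]; exact Submodule.zero_mem _
  | add x y _ _ hx hy =>
    rw [map_add, mul_add, add_mul, add_sub_add_comm]
    exact Submodule.add_mem _ hx hy
  | smul c x _ hx =>
    rw [map_smul, mul_smul_comm, smul_mul_assoc, ← smul_sub]
    exact Submodule.smul_mem _ _ hx

/-- a position with a simple root (or twice a simple root) -/
def Bad (q : QI p d) : Prop :=
  ((q.1.2 : ℕ) < p ∧ (q.1.2 : ℕ) = q.1.1 + 1) ∨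
    ((q.1.1 : ℕ) + 1 = p ∧ p ≤ (q.1.2 : ℕ))

theorem mem_A {i j : Fin (2 * p + d)} {a : Matrix (Fin k) (Fin k) ℝ} (hi : (i : ℕ) < p)
    (hj : (j : ℕ) < p + d) (ha : a ∈ 𝔻) : a ∈ VV p d 𝔻 i j :=
  ⟨ha, fun h => absurd h (nsg hi hj)⟩

theorem Bs.gen (hk : 0 < k) (hH : Herm 𝔻 1) (hd : 1 ≤ d) (q : QI p d) (hq : ¬ Bad q)
    {a : Matrix (Fin k) (Fin k) ℝ} (ha : a ∈ VV p d 𝔻 q.1.1 q.1.2) :
    TT k q.1.1 q.1.2 a ∈ Submodule.span ℝ (B.Br hk q.1.1 q.1.2) := by
  have ht := hH.2.1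
  obtain ⟨⟨i, j⟩, h0, h1, h2⟩ := q
  unfold Bad at hq
  simp only at h0 h1 h2 hq ha ⊢
  rw [Fin.lt_def] at h1
  have hi := i.2
  have hj := j.2
  by_cases hAB : (j : ℕ) < p + d
  · -- types (A), (B)
    have hh1 : (i : ℕ) + 1 < p ∧ (i : ℕ) + 1 < j := by omega
    obtain ⟨h, hh⟩ : ∃ h : Fin (2 * p + d), (h : ℕ) = i + 1 := ⟨⟨i + 1, by omega⟩, rfl⟩
    have e := br1 ht (i := i) (h := h) (j := j) (by rw [Fin.lt_def]; omega)
      (by rw [Fin.lt_def]; omega) (by omega) hAB ha.1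
    rw [← e]
    refine B.br_span hk
      ⟨(i, h), by simp only; omega, by rw [Fin.lt_def]; simp only; omega, by simp only; omega⟩
      ⟨(h, j), by simp only; omega, by rw [Fin.lt_def]; simp only; omega, by simp only; omega⟩
      ?_ ?_ ?_ ?_
    · simp only
      refine np_of hk (fun n => if n = (i : ℕ) then 1 else 0) ?_ ?_
      · rw [W_lt _ h0, W_lt _ (by omega : (h : ℕ) < p), if_pos rfl, if_neg (by omega)]
        norm_num
      · rw [W_lt _ (by omega : (h : ℕ) < p), if_neg (by omega)]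
        rcases lt_or_ge (j : ℕ) p with h6 | h6
        · rw [W_lt _ h6, if_neg (by omega), sub_zero]
        · rw [W_md _ h6 hAB, sub_zero]
    · exact rq_add hk i h j
    · exact mem_A h0 (by simp only; omega) 𝔻.one_mem
    · exact mem_A (by simp only; omega) hAB ha.1
  · by_cases hC : j = sg p d i
    · -- type (L)
      have hsi := sgL h0
      have hip : (i : ℕ) + 1 < p := by omega
      obtain ⟨h, hh⟩ : ∃ h : Fin (2 * p + d), (h : ℕ) = i + 1 := ⟨⟨i + 1, by omega⟩, rfl⟩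
      have hhp : (h : ℕ) < p := by omega
      have hsh := sgL hhp
      have e := br3 ht (i := i) (h := h) (by rw [Fin.lt_def]; omega) hhp ha.1 (ha.2 hC)
      rw [hC, ← e]
      have nn : sg p d h ≠ sg p d i := fun h0 => by
        have := congrArg Fin.val (sg_inj h0); omega
      refine B.br_span hk
        ⟨(i, h), by simp only; omega, by rw [Fin.lt_def]; simp only; omega, by simp only; omega⟩
        ⟨(i, sg p d h), by simp only; omega, by rw [Fin.lt_def]; simp only; omega,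
          by simp only; omega⟩ ?_ ?_ ?_ ?_
      · simp only
        refine np_of hk (fun n => if n = (i : ℕ) then 1 else if n = (h : ℕ) then -1 else 0) ?_ ?_
        · rw [W_lt _ h0, W_lt _ hhp, if_pos rfl, if_neg (by omega), if_pos rfl]
          norm_num
        · rw [W_lt _ h0, W_sg, W_lt _ hhp, if_pos rfl, if_neg (by omega), if_pos rfl]
          norm_num
      · show rq hk i h + rq hk i (sg p d h) = rq hk i (sg p d i)
        have h6 : rq hk i (sg p d h) = rq hk h (sg p d i) := by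
          have := rq_rev (p := p) (d := d) hk i (sg p d h)
          rw [sg_sg] at this
          exact this.symm
        rw [h6]
        exact rq_add hk i h _
      · exact mem_A h0 (by simp only; omega) 𝔻.one_mem
      · exact ⟨𝔻.smul_mem ha.1 _, fun h0 => absurd h0 nn⟩
    · -- type (C)
      obtain ⟨h, hh⟩ : ∃ h : Fin (2 * p + d), (h : ℕ) = 2 * p + d - (j + 1) :=
        ⟨⟨2 * p + d - (j + 1), by omega⟩, rfl⟩
      have hhp : (h : ℕ) < p := by omega
      have hsh := sgL hhp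
      have hjh : j = sg p d h := Fin.ext (by omega)
      have hih : (i : ℕ) < h := by
        rcases Nat.lt_or_ge (i : ℕ) h with h6 | h6
        · exact h6
        · exfalso
          apply hC
          have h7 : h = i := Fin.ext (by omega)
          rw [hjh, h7]
      obtain ⟨r, hr⟩ : ∃ r : Fin (2 * p + d), (r : ℕ) = p := ⟨⟨p, by omega⟩, rfl⟩
      have e := br2 ht (i := i) (h := h) (r := r) (by rw [Fin.lt_def]; exact hih) hhp (by omega)
        (by omega) (𝔻.neg_mem ha.1) 𝔻.one_mem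
      rw [Matrix.transpose_one, mul_one, neg_neg] at e
      rw [hjh, ← e]
      refine B.br_span hk
        ⟨(i, r), by simp only; omega, by rw [Fin.lt_def]; simp only; omega, by simp only; omega⟩
        ⟨(h, r), by simp only; omega, by rw [Fin.lt_def]; simp only; omega, by simp only; omega⟩
        ?_ ?_ ?_ ?_
      · simp only
        refine np_of hk (fun n => if n = (i : ℕ) then 1 else 0) ?_ ?_
        · rw [W_lt _ h0, W_md _ (by omega : p ≤ (r : ℕ)) (by omega), if_pos rfl]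
          norm_num
        · rw [W_lt _ hhp, W_md _ (by omega : p ≤ (r : ℕ)) (by omega), if_neg (by omega), sub_zero]
      · show rq hk i r + rq hk h r = rq hk i (sg p d h)
        have h6 : rq hk h r = rq hk r (sg p d h) := by
          have := rq_rev (p := p) (d := d) hk h r
          rw [sg_mid (by unfold Md; omega : Md p d r)] at this
          exact this.symm
        rw [h6]
        exact rq_add hk i r _
      · exact mem_A h0 (by simp only; omega) (𝔻.neg_mem ha.1)
      · exact mem_A (by simp only; omega) (by simp only; omega) 𝔻.one_mem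

/-- the values of the roots at the vector which is `0` at one simple root -/
noncomputable def uf (p i : ℕ) (n : ℕ) : ℝ := if n ≤ i then ((p : ℝ) - 1 - n) else ((p : ℝ) - n)

theorem uf_le {i n : ℕ} (h : n ≤ i) : uf p i n = (p : ℝ) - 1 - n := if_pos h

theorem uf_gt {i n : ℕ} (h : i < n) : uf p i n = (p : ℝ) - n := if_neg (by omega)

theorem uf_diff {i a b : ℕ} (h : a < b) : 0 ≤ uf p i a - uf p i b ∧
    (uf p i a - uf p i b = 0 → a = i ∧ b = i + 1) := by
  have h1 : (a : ℝ) + 1 ≤ b := by exact_mod_cast h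
  rcases Nat.lt_or_ge i a with h2 | h2
  · rw [uf_gt h2, uf_gt (by omega)]
    exact ⟨by linarith, fun h3 => by linarith⟩
  · rcases Nat.lt_or_ge i b with h3 | h3
    · rw [uf_le h2, uf_gt h3]
      refine ⟨by linarith, fun h4 => ?_⟩
      have h5 : (b : ℝ) = ((a + 1 : ℕ) : ℝ) := by push_cast; linarith
      have h6 : b = a + 1 := by exact_mod_cast h5
      omega
    · rw [uf_le h2, uf_le h3]
      exact ⟨by linarith, fun h3 => by linarith⟩

theorem uf_nonneg {i a : ℕ} (hi : i < p) (h : a < p) : 0 ≤ uf p i a ∧ (uf p i a = 0 → a = i ∧ a + 1 = p) := by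
  have h1 : (a : ℝ) + 1 ≤ p := by exact_mod_cast h
  rcases Nat.lt_or_ge i a with h2 | h2
  · rw [uf_gt h2]
    exact ⟨by linarith, fun h3 => by linarith⟩
  · rw [uf_le h2]
    refine ⟨by linarith, fun h4 => ?_⟩
    have h5 : (p : ℝ) = ((a + 1 : ℕ) : ℝ) := by push_cast; linarith
    have h6 : p = a + 1 := by exact_mod_cast h5
    omega

end

end Pool.Agent.QSB.H51M
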